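import Mathlib

set_option autoImplicit false

namespace Pool.Agent.Helper799.PisierN

open Finset

/-- a norm on `ℝ^m` which is monotone for the coordinatewise order of absolute values -/
structure IsLatticeNorm {m : ℕ} (Nrm : (Fin m → ℝ) → ℝ) : Prop where
  eq_zero : ∀ x, Nrm x = 0 → x = 0
  smul : ∀ (a : ℝ) (x : Fin m → ℝ), Nrm (a • x) = |a| * Nrm x
  add_le : ∀ x y, Nrm (x + y) ≤ Nrm x + Nrm y
  mono : ∀ x y, (∀ b, |x b| ≤ |y b|) → Nrm x ≤ Nrm y

/-- concavity in the form used in the proofs -/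
def QC {m : ℕ} (Nrm : (Fin m → ℝ) → ℝ) (Q : ℕ) (K : ℝ) : Prop :=
  ∀ (ι : Type) (s : Finset ι) (x : ι → Fin m → ℝ) (y : Fin m → ℝ),
    (∀ b, ∑ i ∈ s, |x i b| ^ Q ≤ |y b| ^ Q) → ∑ i ∈ s, Nrm (x i) ^ Q ≤ (K * Nrm y) ^ Q

namespace IsLatticeNorm

variable {m : ℕ} {Nrm : (Fin m → ℝ) → ℝ} (h : IsLatticeNorm Nrm)
include h

lemma zero : Nrm 0 = 0 := by
  have := h.smul 0 0
  simpa using this

lemma nonneg (x : Fin m → ℝ) : 0 ≤ Nrm x := by
  rw [← h.zero]
  exact h.mono _ _ (fun b => by simp)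

lemma abs (x : Fin m → ℝ) : Nrm (fun b => |x b|) = Nrm x :=
  le_antisymm (h.mono _ _ fun b => by simp) (h.mono _ _ fun b => by simp)

lemma sum_le {ι : Type*} (s : Finset ι) (x : ι → Fin m → ℝ) :
    Nrm (∑ i ∈ s, x i) ≤ ∑ i ∈ s, Nrm (x i) := by
  classical
  induction s using Finset.induction_on with
  | empty => simp [h.zero]
  | insert a s ha ih =>
    rw [Finset.sum_insert ha, Finset.sum_insert ha]
    exact (h.add_le _ _).trans (by linarith)

lemma le_norm (x : Fin m → ℝ) : Nrm x ≤ ‖x‖ * Nrm 1 := by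
  have h1 : Nrm x ≤ Nrm (‖x‖ • (1 : Fin m → ℝ)) := by
    apply h.mono
    intro b
    have : ‖x b‖ ≤ ‖x‖ := norm_le_pi_norm x b
    simpa [Real.norm_eq_abs] using this
  rw [h.smul] at h1
  simpa using h1

lemma neg (x : Fin m → ℝ) : Nrm (-x) = Nrm x :=
  le_antisymm (h.mono _ _ fun b => by simp) (h.mono _ _ fun b => by simp)

lemma sub_le (x y : Fin m → ℝ) : |Nrm x - Nrm y| ≤ ‖x - y‖ * Nrm 1 := by
  have h1 : Nrm x ≤ Nrm (x - y) + Nrm y := by
    have := h.add_le (x - y) y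
    simpa using this
  have h2 : Nrm y ≤ Nrm (x - y) + Nrm x := by
    have := h.add_le (y - x) x
    have h3 : Nrm (y - x) = Nrm (x - y) := by rw [← h.neg (y - x)]; simp
    rw [h3] at this
    simpa using this
  have h3 := h.le_norm (x - y)
  rw [abs_le]
  constructor <;> linarith

lemma continuous : Continuous Nrm := by
  rw [Metric.continuous_iff]
  intro x ε hε
  refine ⟨ε / (Nrm 1 + 1), by have := h.nonneg 1; positivity, fun y hy => ?_⟩
  rw [Real.dist_eq]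
  rw [dist_eq_norm] at hy
  have h0 := h.nonneg 1
  refine (h.sub_le y x).trans_lt ?_
  rw [lt_div_iff₀ (by linarith)] at hy
  nlinarith [norm_nonneg (y - x)]

end IsLatticeNorm

/-- Euclidean norms of the rows -/
noncomputable def sf {m n : ℕ} (B : Matrix (Fin m) (Fin n) ℝ) : Fin m → ℝ :=
  fun b => Real.sqrt (∑ i, (B b i) ^ 2)

lemma sf_nonneg {m n : ℕ} (B : Matrix (Fin m) (Fin n) ℝ) (b : Fin m) : 0 ≤ sf B b :=
  Real.sqrt_nonneg _

lemma sf_sq {m n : ℕ} (B : Matrix (Fin m) (Fin n) ℝ) (b : Fin m) :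
    sf B b ^ 2 = ∑ i, (B b i) ^ 2 :=
  Real.sq_sqrt (Finset.sum_nonneg fun i _ => sq_nonneg _)

lemma sqrt_add_le {n : ℕ} (u v : Fin n → ℝ) :
    Real.sqrt (∑ i, (u i + v i) ^ 2)
      ≤ Real.sqrt (∑ i, u i ^ 2) + Real.sqrt (∑ i, v i ^ 2) := by
  have hu : 0 ≤ ∑ i, u i ^ 2 := Finset.sum_nonneg fun i _ => sq_nonneg _
  have hv : 0 ≤ ∑ i, v i ^ 2 := Finset.sum_nonneg fun i _ => sq_nonneg _
  apply Real.sqrt_le_iff.2
  refine ⟨by positivity, ?_⟩
  have h1 := Real.sum_mul_le_sqrt_mul_sqrt Finset.univ u v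
  have h2 : ∑ i, (u i + v i) ^ 2 = ∑ i, u i ^ 2 + 2 * ∑ i, u i * v i + ∑ i, v i ^ 2 := by
    rw [Finset.mul_sum, ← Finset.sum_add_distrib, ← Finset.sum_add_distrib]
    exact Finset.sum_congr rfl fun i _ => by ring
  rw [h2, add_sq, Real.sq_sqrt hu, Real.sq_sqrt hv]
  linarith

lemma sf_add {m n : ℕ} (B C : Matrix (Fin m) (Fin n) ℝ) (b : Fin m) :
    sf (B + C) b ≤ sf B b + sf C b := by
  have := sqrt_add_le (B b) (C b)
  simpa [sf] using this

lemma sf_smul {m n : ℕ} (a : ℝ) (B : Matrix (Fin m) (Fin n) ℝ) :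
    sf (a • B) = |a| • sf B := by
  funext b
  simp only [sf, Matrix.smul_apply, smul_eq_mul, Pi.smul_apply]
  rw [show ∑ i, (a * B b i) ^ 2 = a ^ 2 * ∑ i, (B b i) ^ 2 by
    rw [Finset.mul_sum]; exact Finset.sum_congr rfl fun i _ => by ring]
  rw [Real.sqrt_mul (sq_nonneg a), Real.sqrt_sq_eq_abs]

lemma sf_eq_zero {m n : ℕ} (B : Matrix (Fin m) (Fin n) ℝ) (h : sf B = 0) : B = 0 := by
  ext b i
  have h1 : sf B b = 0 := by rw [h]; rfl
  have h2 := sf_sq B b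
  rw [h1] at h2
  have h3 : ∑ i, (B b i) ^ 2 = 0 := by rw [← h2]; ring
  rw [Finset.sum_eq_zero_iff_of_nonneg fun i _ => sq_nonneg _] at h3
  have := h3 i (Finset.mem_univ _)
  simpa using this

lemma continuous_sf {m n : ℕ} :
    Continuous (fun B : Matrix (Fin m) (Fin n) ℝ => sf B) := by
  apply continuous_pi
  intro b
  unfold sf
  fun_prop

end Pool.Agent.Helper799.PisierN
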