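import Mathlib
import Pool.Agent.Helper799.Khin

set_option autoImplicit false

namespace Pool.Agent.Helper799.PisierN

open Finset
open Pool.Agent.Helper799.Khin (sg)

section signs
variable {n : ℕ}

lemma mom2 (a : Fin n → ℝ) :
    ∑ s : Finset (Fin n), (∑ i, sg s i * a i) ^ 2 = 2 ^ n * ∑ i, a i ^ 2 := by
  have := Khin.moment2 (Finset.univ : Finset (Fin n)) a
  rw [Finset.powerset_univ, Finset.card_univ, Fintype.card_fin] at this
  exact this

lemma khin (a : Fin n → ℝ) :
    (9 / 16) * (2 ^ n * Real.sqrt (∑ i, a i ^ 2))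
      ≤ ∑ s : Finset (Fin n), |∑ i, sg s i * a i| := by
  have := Khin.khintchine (Finset.univ : Finset (Fin n)) a
  rw [Finset.powerset_univ, Finset.card_univ, Fintype.card_fin] at this
  exact this

lemma exp_moment' (T : Finset (Fin n)) (a : Fin n → ℝ) :
    ∑ s ∈ T.powerset, Real.exp (∑ i ∈ T, sg s i * a i)
      = ∏ i ∈ T, (Real.exp (a i) + Real.exp (-a i)) := by
  induction T using Finset.induction_on with
  | empty => simp
  | insert j T hj ih =>
    rw [Finset.sum_powerset_insert hj, Finset.prod_insert hj]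
    have h1 : ∑ t ∈ T.powerset, Real.exp (∑ i ∈ insert j T, sg t i * a i)
        = ∑ t ∈ T.powerset, Real.exp (∑ i ∈ T, sg t i * a i) * Real.exp (-a j) :=
      Finset.sum_congr rfl fun t ht => by
        rw [Khin.sum_insert_not_mem hj (Finset.mem_powerset.1 ht), ← Real.exp_add]; ring_nf
    have h2 : ∑ t ∈ T.powerset, Real.exp (∑ i ∈ insert j T, sg (insert j t) i * a i)
        = ∑ t ∈ T.powerset, Real.exp (∑ i ∈ T, sg t i * a i) * Real.exp (a j) :=
      Finset.sum_congr rfl fun t ht => by
        rw [Khin.sum_insert_mem hj (Finset.mem_powerset.1 ht), ← Real.exp_add]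
    rw [h1, h2, ← Finset.sum_mul, ← Finset.sum_mul, ih]
    ring

lemma exp_moment (a : Fin n → ℝ) :
    ∑ s : Finset (Fin n), Real.exp (∑ i, sg s i * a i)
      ≤ 2 ^ n * Real.exp ((∑ i, a i ^ 2) / 2) := by
  have h := exp_moment' (Finset.univ : Finset (Fin n)) a
  rw [Finset.powerset_univ] at h
  rw [h]
  calc ∏ i, (Real.exp (a i) + Real.exp (-a i)) ≤ ∏ i, (2 * Real.exp (a i ^ 2 / 2)) := by
        apply Finset.prod_le_prod
        · intro i _; positivity
        · intro i _
          have := Real.cosh_le_exp_half_sq (a i)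
          rw [Real.cosh_eq] at this
          linarith
    _ = 2 ^ n * Real.exp ((∑ i, a i ^ 2) / 2) := by
        rw [Finset.prod_mul_distrib, ← Real.exp_sum, Finset.sum_div]
        simp

lemma even_moment {p : ℕ} (hp : 1 ≤ p) (a : Fin n → ℝ) :
    ∑ s : Finset (Fin n), (∑ i, sg s i * a i) ^ (2 * p)
      ≤ 2 ^ n * (4 * ((2 * p).factorial : ℝ) * (Real.sqrt (∑ i, a i ^ 2)) ^ (2 * p)) := by
  set σ := Real.sqrt (∑ i, a i ^ 2) with hσ
  have hs : 0 ≤ ∑ i, a i ^ 2 := Finset.sum_nonneg fun i _ => sq_nonneg _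
  have hσ2 : σ ^ 2 = ∑ i, a i ^ 2 := Real.sq_sqrt hs
  rcases (Real.sqrt_nonneg (∑ i, a i ^ 2)).eq_or_lt' with h0 | hpos
  · have h1 : ∑ i, a i ^ 2 = 0 := by rw [← hσ2, hσ, h0]; ring
    have h2 : ∀ i, a i = 0 := by
      rw [Finset.sum_eq_zero_iff_of_nonneg fun i _ => sq_nonneg _] at h1
      intro i
      have := h1 i (Finset.mem_univ _)
      simpa using this
    have h3 : ∑ s : Finset (Fin n), (∑ i, sg s i * a i) ^ (2 * p) = 0 := by
      apply Finset.sum_eq_zero
      intro s _
      simp [h2]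
      omega
    rw [h3]
    positivity
  · rw [← hσ] at hpos
    -- the exponential moment for the normalised vector
    have key : ∀ s : Finset (Fin n), ((∑ i, sg s i * a i) / σ) ^ (2 * p)
        ≤ ((2 * p).factorial : ℝ) * (Real.exp (∑ i, sg s i * (a i / σ))
          + Real.exp (∑ i, sg s i * (-(a i / σ)))) := by
      intro s
      have e1 : ∑ i, sg s i * (a i / σ) = (∑ i, sg s i * a i) / σ := by
        rw [Finset.sum_div]; exact Finset.sum_congr rfl fun i _ => by ring
      have e2 : ∑ i, sg s i * (-(a i / σ)) = -((∑ i, sg s i * a i) / σ) := by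
        rw [← e1, ← Finset.sum_neg_distrib]; exact Finset.sum_congr rfl fun i _ => by ring
      rw [e1, e2]
      set x := (∑ i, sg s i * a i) / σ
      have h1 := Real.pow_div_factorial_le_exp (x := |x|) (abs_nonneg x) (2 * p)
      rw [div_le_iff₀ (by positivity)] at h1
      have h2 : |x| ^ (2 * p) = x ^ (2 * p) := by rw [pow_mul, pow_mul, sq_abs]
      rw [h2] at h1
      have h3 : Real.exp |x| ≤ Real.exp x + Real.exp (-x) := by
        rcases abs_cases x with ⟨h, _⟩ | ⟨h, _⟩ <;> rw [h] <;> 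
          linarith [Real.exp_pos x, Real.exp_pos (-x)]
      have h4 : (0 : ℝ) < (2 * p).factorial := by positivity
      nlinarith
    have hn1 : ∑ i, (a i / σ) ^ 2 = 1 := by
      have : ∑ i, (a i / σ) ^ 2 = (∑ i, a i ^ 2) / σ ^ 2 := by
        rw [Finset.sum_div]; exact Finset.sum_congr rfl fun i _ => by rw [div_pow]
      rw [this, hσ2, div_self]
      rw [← hσ2]; positivity
    have hn2 : ∑ i, (-(a i / σ)) ^ 2 = 1 := by
      rw [← hn1]; exact Finset.sum_congr rfl fun i _ => by ring
    have E1 := exp_moment (fun i => a i / σ)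
    have E2 := exp_moment (fun i => -(a i / σ))
    simp only [hn1] at E1
    simp only [hn2] at E2
    have hexp : Real.exp (1 / 2) ≤ 2 := by
      have h1 : Real.exp (1 / 2) ^ 2 = Real.exp 1 := by
        rw [← Real.exp_nat_mul]; norm_num
      have h2 := Real.exp_one_lt_d9
      nlinarith [Real.exp_pos (1 / 2 : ℝ)]
    have hsum : ∑ s : Finset (Fin n), ((∑ i, sg s i * a i) / σ) ^ (2 * p)
        ≤ ((2 * p).factorial : ℝ) * (2 ^ n * 2 + 2 ^ n * 2) := by
      refine (Finset.sum_le_sum fun s _ => key s).trans ?_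
      rw [← Finset.mul_sum, Finset.sum_add_distrib]
      have h2n : (0 : ℝ) < 2 ^ n := by positivity
      gcongr
      · exact E1.trans (by gcongr)
      · exact E2.trans (by gcongr)
    have hsc : ∑ s : Finset (Fin n), (∑ i, sg s i * a i) ^ (2 * p)
        = (∑ s : Finset (Fin n), ((∑ i, sg s i * a i) / σ) ^ (2 * p)) * σ ^ (2 * p) := by
      rw [Finset.sum_mul]
      exact Finset.sum_congr rfl fun s _ => by
        rw [div_pow, div_mul_cancel₀]; positivity
    rw [hsc]
    have : 0 < σ ^ (2 * p) := by positivity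
    nlinarith

end signs

section cells
variable {Ω L : Type*} [Fintype Ω] [DecidableEq L] [Fintype L] (J : Ω → L)

/-- the cell of a point -/
def cell (s : Ω) : Finset Ω := Finset.univ.filter fun t => J t = J s

lemma mem_cell {s t : Ω} : t ∈ cell J s ↔ J t = J s := by simp [cell]

lemma card_cell_pos (s : Ω) : (0 : ℝ) < (cell J s).card := by
  have : 0 < (cell J s).card := Finset.card_pos.2 ⟨s, (mem_cell J).2 rfl⟩
  exact_mod_cast this

/-- the average over the cell -/
noncomputable def cav (g : Ω → ℝ) (s : Ω) : ℝ := (∑ t ∈ cell J s, g t) / (cell J s).card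

lemma sum_cav (g : Ω → ℝ) : ∑ s, cav J g s = ∑ s, g s := by
  have h1 : ∀ s, cav J g s = ∑ t, (if J t = J s then g t / (cell J s).card else 0) := by
    intro s
    unfold cav
    rw [Finset.sum_div, cell, Finset.sum_filter]
  rw [Finset.sum_congr rfl fun s _ => h1 s, Finset.sum_comm]
  apply Finset.sum_congr rfl
  intro t _
  have h2 : ∀ s, (if J t = J s then g t / ((cell J s).card : ℝ) else 0)
      = if J s = J t then g t / ((cell J t).card : ℝ) else 0 := by
    intro s
    by_cases h : J t = J s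
    · have : cell J s = cell J t := by unfold cell; rw [h]
      rw [if_pos h, if_pos h.symm, this]
    · rw [if_neg h, if_neg (fun h' => h h'.symm)]
  rw [Finset.sum_congr rfl fun s _ => h2 s, ← Finset.sum_filter, Finset.sum_const, nsmul_eq_mul]
  have h3 := card_cell_pos J t
  have h4 : (((Finset.univ.filter fun s => J s = J t).card : ℕ) : ℝ) = (cell J t).card := rfl
  rw [h4]
  field_simp

lemma cav_mono {g h : Ω → ℝ} (s : Ω) (hgh : ∀ t, J t = J s → g t ≤ h t) :
    cav J g s ≤ cav J h s := by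
  unfold cav
  have := card_cell_pos J s
  gcongr with t ht
  exact hgh t ((mem_cell J).1 ht)

lemma cav_pow (g : Ω → ℝ) (s : Ω) {p : ℕ} (hp : 1 ≤ p) :
    (cav J g s) ^ (2 * p) ≤ cav J (fun t => g t ^ (2 * p)) s := by
  obtain ⟨k, hk⟩ : ∃ k, 2 * p = k + 1 := ⟨2 * p - 1, by omega⟩
  have hc := card_cell_pos J s
  have h1 := pow_sum_div_card_le_sum_pow (s := cell J s) (f := fun t => |g t|)
    (fun t _ => abs_nonneg _) k
  rw [← hk] at h1
  have h2 : ∀ x : ℝ, |x| ^ (2 * p) = x ^ (2 * p) := fun x => by rw [pow_mul, pow_mul, sq_abs]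
  have h3 : (∑ t ∈ cell J s, g t) ^ (2 * p) ≤ (∑ t ∈ cell J s, |g t|) ^ (2 * p) := by
    rw [← h2 (∑ t ∈ cell J s, g t)]
    exact pow_le_pow_left₀ (abs_nonneg _) (Finset.abs_sum_le_sum_abs _ _) _
  unfold cav
  rw [div_pow, div_le_div_iff₀ (by positivity) hc]
  rw [div_le_iff₀ (by positivity)] at h1
  have h4 : ∑ t ∈ cell J s, |g t| ^ (2 * p) = ∑ t ∈ cell J s, g t ^ (2 * p) :=
    Finset.sum_congr rfl fun t _ => h2 _
  rw [h4] at h1
  have h5 : ((cell J s).card : ℝ) ^ (2 * p) = (cell J s).card ^ k * (cell J s).card := by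
    rw [hk, pow_succ]
  rw [h5, ← mul_assoc]
  exact mul_le_mul_of_nonneg_right (h3.trans h1) hc.le

lemma cav_exp (g : Ω → ℝ) (s : Ω) :
    Real.exp (cav J g s) ≤ cav J (fun t => Real.exp (g t)) s := by
  have hc := card_cell_pos J s
  set c := cav J g s with hcdef
  have h1 : ∑ t ∈ cell J s, (Real.exp c * (1 + g t - c)) ≤ ∑ t ∈ cell J s, Real.exp (g t) := by
    apply Finset.sum_le_sum
    intro t _
    have := Real.add_one_le_exp (g t - c)
    have h2 : Real.exp (g t) = Real.exp c * Real.exp (g t - c) := by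
      rw [← Real.exp_add]; ring_nf
    rw [h2]
    have := Real.exp_pos c
    nlinarith
  have h2 : ∑ t ∈ cell J s, (Real.exp c * (1 + g t - c)) = Real.exp c * (cell J s).card := by
    rw [← Finset.mul_sum, Finset.sum_sub_distrib, Finset.sum_add_distrib]
    simp only [Finset.sum_const, nsmul_eq_mul, mul_one]
    have : ∑ t ∈ cell J s, g t = c * (cell J s).card := by
      rw [hcdef, cav, div_mul_cancel₀ _ hc.ne']
    rw [this]; ring
  show Real.exp c ≤ (∑ t ∈ cell J s, Real.exp (g t)) / (cell J s).card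
  rw [le_div_iff₀ hc, ← h2]
  exact h1

lemma cav_sum {ι : Type*} (T : Finset ι) (g : ι → Ω → ℝ) (a : ι → ℝ) (s : Ω) :
    ∑ i ∈ T, cav J (g i) s * a i = cav J (fun t => ∑ i ∈ T, g i t * a i) s := by
  unfold cav
  rw [Finset.sum_comm, Finset.sum_div]
  apply Finset.sum_congr rfl
  intro i _
  rw [← Finset.sum_mul]; ring

lemma sum_inv_card : ∑ s, (1 : ℝ) / (cell J s).card ≤ Fintype.card L := by
  have h1 : ∑ s, (1 : ℝ) / (cell J s).card
      = ∑ l : L, ∑ s ∈ Finset.univ.filter (fun s => J s = l), (1 : ℝ) / (cell J s).card :=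
    (Finset.sum_fiberwise _ _ _).symm
  rw [h1]
  have h2 : ∀ l : L, ∑ s ∈ Finset.univ.filter (fun s => J s = l), (1 : ℝ) / (cell J s).card ≤ 1 := by
    intro l
    have h3 : ∑ s ∈ Finset.univ.filter (fun s => J s = l), (1 : ℝ) / (cell J s).card
        = ∑ s ∈ Finset.univ.filter (fun s => J s = l),
          (1 : ℝ) / (Finset.univ.filter (fun s => J s = l)).card := by
      apply Finset.sum_congr rfl
      intro s hs
      rw [Finset.mem_filter] at hs
      have : cell J s = Finset.univ.filter (fun s => J s = l) := by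
        unfold cell; rw [hs.2]
      rw [this]
    rw [h3, Finset.sum_const, nsmul_eq_mul, mul_one_div]
    exact div_self_le_one _
  calc ∑ l : L, ∑ s ∈ Finset.univ.filter (fun s => J s = l), (1 : ℝ) / (cell J s).card
      ≤ ∑ _l : L, (1 : ℝ) := Finset.sum_le_sum fun l _ => h2 l
    _ = Fintype.card L := by simp

end cells

section both
variable {n : ℕ} {L : Type*} [DecidableEq L] [Fintype L] (J : Finset (Fin n) → L)

/-- barycentre of the cell -/
noncomputable def bar (s : Finset (Fin n)) (i : Fin n) : ℝ := cav J (fun t => sg t i) s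

lemma bar_dot (s : Finset (Fin n)) (a : Fin n → ℝ) :
    ∑ i, bar J s i * a i = cav J (fun t => ∑ i, sg t i * a i) s := by
  unfold bar
  exact cav_sum J Finset.univ (fun i t => sg t i) a s

lemma bar_sq (s : Finset (Fin n)) :
    ∑ i, bar J s i ^ 2 ≤ 2 * Real.log (2 ^ n / (cell J s).card) := by
  have hc := card_cell_pos J s
  set e := ∑ i, bar J s i ^ 2 with he
  have h1 : Real.exp e ≤ 2 ^ n * Real.exp (e / 2) / (cell J s).card := by
    have h2 : e = cav J (fun t => ∑ i, sg t i * bar J s i) s := by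
      rw [← bar_dot, he]; exact Finset.sum_congr rfl fun i _ => by ring
    have h3 := cav_exp J (fun t => ∑ i, sg t i * bar J s i) s
    rw [← h2] at h3
    refine h3.trans ?_
    unfold cav
    gcongr
    refine le_trans ?_ (exp_moment (bar J s))
    apply Finset.sum_le_sum_of_subset_of_nonneg (Finset.subset_univ _)
    intro t _ _
    positivity
  have h2 : Real.exp (e / 2) ≤ 2 ^ n / (cell J s).card := by
    have h3 : Real.exp e = Real.exp (e / 2) * Real.exp (e / 2) := by
      rw [← Real.exp_add]; ring_nf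
    rw [h3, le_div_iff₀ hc] at h1
    rw [le_div_iff₀ hc]
    have h4 := Real.exp_pos (e / 2)
    nlinarith
  have h3 := Real.log_le_log (Real.exp_pos _) h2
  rw [Real.log_exp] at h3
  linarith

lemma energy : ∑ s, ∑ i, bar J s i ^ 2 ≤ 2 ^ n * (2 * Real.log (Fintype.card L)) := by
  have hL : (0 : ℝ) < Fintype.card L := by
    have : 0 < Fintype.card L := Fintype.card_pos_iff.2 ⟨J ∅⟩
    exact_mod_cast this
  have h1 : ∀ s, ∑ i, bar J s i ^ 2
      ≤ 2 * ((2 ^ n / Fintype.card L) * (1 / (cell J s).card) - 1 + Real.log (Fintype.card L)) := by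
    intro s
    have hc := card_cell_pos J s
    refine (bar_sq J s).trans ?_
    have h2 : Real.log (2 ^ n / (cell J s).card)
        = Real.log ((2 ^ n / Fintype.card L) * (1 / (cell J s).card))
          + Real.log (Fintype.card L) := by
      rw [← Real.log_mul (by positivity) (by positivity)]
      congr 1
      field_simp
    have h3 := Real.log_le_sub_one_of_pos
      (show (0 : ℝ) < (2 ^ n / Fintype.card L) * (1 / (cell J s).card) by positivity)
    linarith
  refine (Finset.sum_le_sum fun s _ => h1 s).trans ?_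
  rw [← Finset.mul_sum, Finset.sum_add_distrib, Finset.sum_sub_distrib, ← Finset.mul_sum]
  have h2 := sum_inv_card J
  simp only [Finset.sum_const, nsmul_eq_mul, Finset.card_univ, Fintype.card_finset,
    Fintype.card_fin, mul_one]
  push_cast
  have h3 : (2 ^ n / (Fintype.card L : ℝ)) * ∑ s, (1 : ℝ) / (cell J s).card ≤ 2 ^ n := by
    calc (2 ^ n / (Fintype.card L : ℝ)) * ∑ s, (1 : ℝ) / (cell J s).card
        ≤ (2 ^ n / (Fintype.card L : ℝ)) * Fintype.card L := by gcongr
      _ = 2 ^ n := by field_simp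
  linarith

lemma bar_mom2 (a : Fin n → ℝ) :
    ∑ s, (∑ i, bar J s i * a i) ^ 2 ≤ 2 ^ n * ∑ i, a i ^ 2 := by
  rw [← mom2 a]
  calc ∑ s, (∑ i, bar J s i * a i) ^ 2
      ≤ ∑ s, cav J (fun t => (∑ i, sg t i * a i) ^ 2) s := by
        apply Finset.sum_le_sum
        intro s _
        rw [bar_dot]
        exact cav_pow J _ s (le_refl 1)
    _ = _ := sum_cav J _

lemma bar_even {p : ℕ} (hp : 1 ≤ p) (a : Fin n → ℝ) :
    ∑ s, (∑ i, bar J s i * a i) ^ (2 * p)
      ≤ 2 ^ n * (4 * ((2 * p).factorial : ℝ) * (Real.sqrt (∑ i, a i ^ 2)) ^ (2 * p)) := by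
  refine le_trans ?_ (even_moment hp a)
  calc ∑ s, (∑ i, bar J s i * a i) ^ (2 * p)
      ≤ ∑ s, cav J (fun t => (∑ i, sg t i * a i) ^ (2 * p)) s := by
        apply Finset.sum_le_sum
        intro s _
        rw [bar_dot]
        exact cav_pow J _ s hp
    _ = _ := sum_cav J _

end both

end Pool.Agent.Helper799.PisierN
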