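import Mathlib
import Pool.Agent.Helper799.PisierN.Basic

set_option autoImplicit false

namespace Pool.Agent.Helper799.PisierN

open Finset

/-- lower estimate for disjoint vectors -/
def LowerEst {m : ℕ} (Nrm : (Fin m → ℝ) → ℝ) (q K : ℝ) : Prop :=
  ∀ (k : ℕ) (x : Fin k → Fin m → ℝ), (∀ i j, i ≠ j → ∀ b, x i b = 0 ∨ x j b = 0) →
    (∑ i, Nrm (x i) ^ q) ^ (1 / q) ≤ K * Nrm (∑ i, x i)

/-- averaged concavity -/
def AC {m : ℕ} (Nrm : (Fin m → ℝ) → ℝ) (Q : ℕ) (C : ℝ) : Prop :=
  ∀ (ι : Type) [Fintype ι] (x : ι → Fin m → ℝ) (y : Fin m → ℝ),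
    (∀ b, ∑ i, |x i b| ^ Q ≤ (Fintype.card ι : ℝ) * |y b| ^ Q) →
      ∑ i, Nrm (x i) ≤ (Fintype.card ι : ℝ) * (C * Nrm y)

/-- number of samples avoiding a point off one coordinate -/
lemma count_avoid {I : Type} [Fintype I] [DecidableEq I] (P : I → Prop) [DecidablePred P]
    {k : ℕ} (l : Fin k) (i : I) :
    ((Finset.univ.filter fun ω : Fin k → I => ω l = i ∧ ∀ l', l' ≠ l → ¬ P (ω l')).card)
      = (Finset.univ.filter fun i => ¬ P i).card ^ (k - 1) := by
  have h1 : (Finset.univ.filter fun ω : Fin k → I => ω l = i ∧ ∀ l', l' ≠ l → ¬ P (ω l'))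
      = Fintype.piFinset (fun l' => if l' = l then ({i} : Finset I)
          else Finset.univ.filter fun i => ¬ P i) := by
    ext ω
    simp only [Finset.mem_filter, Finset.mem_univ, true_and, Fintype.mem_piFinset]
    constructor
    · rintro ⟨h1, h2⟩ l'
      by_cases h : l' = l
      · subst h; simp [h1]
      · simp [h, h2 l' h]
    · intro h
      refine ⟨by have := h l; simpa using this, fun l' hl' => ?_⟩
      have := h l'
      simpa [hl'] using this
  rw [h1, Fintype.card_piFinset]
  have h2 : ∀ l' : Fin k, (if l' = l then ({i} : Finset I)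
      else Finset.univ.filter fun i => ¬ P i).card
      = if l' = l then 1 else (Finset.univ.filter fun i => ¬ P i).card := by
    intro l'; split_ifs <;> simp
  rw [Finset.prod_congr rfl fun l' _ => h2 l', Finset.prod_ite]
  simp [Finset.filter_ne', Finset.card_erase_of_mem]

lemma pow_lower {M a : ℝ} {k : ℕ} (hk : 1 ≤ k) (hM : 0 < M) (ha : 0 ≤ a)
    (h : 2 * k * a ≤ M) : M ^ (k - 1) / 2 ≤ (M - a) ^ (k - 1) := by
  have hk' : (1 : ℝ) ≤ k := by exact_mod_cast hk
  have haM : a ≤ M := by nlinarith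
  have h1 : (M - a) = M * (1 + (-(a / M))) := by field_simp; ring
  rw [h1, mul_pow]
  have hx : a / M ≤ 1 := by rw [div_le_one hM]; exact haM
  have h2 := one_add_mul_le_pow (a := -(a / M)) (by linarith) (k - 1)
  have h3 : (1 : ℝ) / 2 ≤ 1 + ((k - 1 : ℕ) : ℝ) * (-(a / M)) := by
    have h4 : ((k - 1 : ℕ) : ℝ) ≤ k := by exact_mod_cast Nat.sub_le k 1
    have h5 : ((k - 1 : ℕ) : ℝ) * (a / M) ≤ 1 / 2 := by
      calc ((k - 1 : ℕ) : ℝ) * (a / M) ≤ k * (a / M) := by gcongr
        _ = (2 * k * a) / M / 2 := by ring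
        _ ≤ 1 / 2 := by
          have : (2 * k * a) / M ≤ 1 := by rw [div_le_one hM]; exact h
          linarith
    linarith
  have h6 : (0 : ℝ) ≤ M ^ (k - 1) := by positivity
  have h7 := mul_le_mul_of_nonneg_left (h3.trans h2) h6
  linarith

open Classical in
/-- A sparse random set carries a small part of the norm. -/
lemma sparse {m : ℕ} {Nrm : (Fin m → ℝ) → ℝ} (h : IsLatticeNorm Nrm) {q K : ℝ} (hq : 1 ≤ q)
    (hK : 0 ≤ K) (hlow : LowerEst Nrm q K) {I : Type} [Fintype I] [Nonempty I]
    (S : I → Fin m → Prop) (y : Fin m → ℝ) {k : ℕ} (hk : 1 ≤ k) {c : ℝ} (hc : 0 < c)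
    (hck : c ≤ (k : ℝ) ^ (1 / q))
    (hcount : ∀ b, 2 * (k : ℝ) * ((Finset.univ.filter fun i => S i b).card : ℝ)
      ≤ Fintype.card I) :
    ∑ i, Nrm (fun b => if S i b then y b else 0)
      ≤ (Fintype.card I : ℝ) * (2 * K / c * Nrm y) := by
  have hM : (0 : ℝ) < (Fintype.card I : ℝ) := by exact_mod_cast Fintype.card_pos
  have hk0 : (0 : ℝ) < k := by exact_mod_cast (by omega : 0 < k)
  set M : ℝ := (Fintype.card I : ℝ) with hMdef
  let Z : (Fin k → I) → Fin k → Fin m → ℝ := fun ω l b =>
    if S (ω l) b ∧ ∀ l', l' ≠ l → ¬ S (ω l') b then y b else 0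
  -- (1) every sample
  have step1 : ∀ ω, ∑ l, Nrm (Z ω l) ≤ k / c * (K * Nrm y) := by
    intro ω
    have hdis : ∀ i j : Fin k, i ≠ j → ∀ b, Z ω i b = 0 ∨ Z ω j b = 0 := by
      intro i j hij b
      by_cases h1 : S (ω i) b
      · right
        simp only [Z]
        rw [if_neg]
        intro h2
        exact h2.2 i hij h1
      · left
        simp only [Z]
        rw [if_neg]
        intro h2
        exact h1 h2.1
    have h1 := hlow k (Z ω) hdis
    have h2 : Nrm (∑ l, Z ω l) ≤ Nrm y := by
      apply h.mono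
      intro b
      rw [Finset.sum_apply]
      by_cases hex : ∃ l, Z ω l b ≠ 0
      · obtain ⟨l, hl⟩ := hex
        rw [Finset.sum_eq_single l]
        · simp only [Z]
          split_ifs
          · exact le_refl _
          · simp
        · intro l' _ hl'
          rcases hdis l l' (Ne.symm hl') b with h3 | h3
          · exact absurd h3 hl
          · exact h3
        · intro h3; exact absurd (Finset.mem_univ _) h3
      · push Not at hex
        rw [Finset.sum_eq_zero fun l _ => hex l]
        simp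
    have hnn : ∀ l, 0 ≤ Nrm (Z ω l) := fun l => h.nonneg _
    have h3 := Real.rpow_sum_le_const_mul_sum_rpow (Finset.univ : Finset (Fin k))
      (fun l => Nrm (Z ω l)) hq
    simp only [abs_of_nonneg (hnn _), Finset.card_univ, Fintype.card_fin] at h3
    have hs0 : 0 ≤ ∑ l, Nrm (Z ω l) ^ q :=
      Finset.sum_nonneg fun l _ => Real.rpow_nonneg (hnn l) _
    have hq0 : 0 < q := by linarith
    have h4 : ∑ l, Nrm (Z ω l) ≤ ((k : ℝ) ^ (q - 1) * ∑ l, Nrm (Z ω l) ^ q) ^ (1 / q) := by
      have h5 := Real.rpow_le_rpow (Real.rpow_nonneg (Finset.sum_nonneg fun l _ => hnn l) _) h3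
        (by positivity : (0 : ℝ) ≤ 1 / q)
      rwa [← Real.rpow_mul (Finset.sum_nonneg fun l _ => hnn l), mul_one_div_cancel hq0.ne',
        Real.rpow_one] at h5
    rw [Real.mul_rpow (by positivity) hs0, ← Real.rpow_mul hk0.le] at h4
    have h6 : (q - 1) * (1 / q) = 1 - 1 / q := by field_simp
    rw [h6, Real.rpow_sub hk0, Real.rpow_one] at h4
    calc ∑ l, Nrm (Z ω l) ≤ k / (k : ℝ) ^ (1 / q) * (∑ l, Nrm (Z ω l) ^ q) ^ (1 / q) := h4
      _ ≤ k / c * (K * Nrm y) := by
          apply mul_le_mul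
          · gcongr
          · exact h1.trans (by gcongr)
          · positivity
          · positivity
  -- (2) every point of the index set
  have step2 : ∀ l i, M ^ (k - 1) / 2 * Nrm (fun b => if S i b then y b else 0)
      ≤ ∑ ω ∈ Finset.univ.filter (fun ω : Fin k → I => ω l = i), Nrm (Z ω l) := by
    intro l i
    refine le_trans ?_ (h.sum_le _ _)
    have h0 : (0 : ℝ) ≤ M ^ (k - 1) / 2 := by positivity
    rw [← abs_of_nonneg h0, ← h.smul]
    apply h.mono
    intro b
    rw [Finset.sum_apply, Pi.smul_apply, smul_eq_mul]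
    by_cases hS : S i b
    · have h1 : ∑ ω ∈ Finset.univ.filter (fun ω : Fin k → I => ω l = i), Z ω l b
          = ((Finset.univ.filter fun ω : Fin k → I =>
              ω l = i ∧ ∀ l', l' ≠ l → ¬ S (ω l') b).card : ℝ) * y b := by
        have h5 : ∑ ω ∈ Finset.univ.filter (fun ω : Fin k → I => ω l = i), Z ω l b
            = ∑ ω ∈ Finset.univ.filter (fun ω : Fin k → I => ω l = i),
              (if ∀ l', l' ≠ l → ¬ S (ω l') b then y b else 0) := by
          apply Finset.sum_congr rfl
          intro ω hω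
          rw [Finset.mem_filter] at hω
          simp only [Z, hω.2, hS, true_and]
        rw [h5, ← Finset.sum_filter, Finset.filter_filter, Finset.sum_const, nsmul_eq_mul]
      rw [h1, count_avoid (fun i => S i b) l i, if_pos hS, abs_mul, abs_mul]
      apply mul_le_mul_of_nonneg_right _ (abs_nonneg _)
      rw [abs_of_nonneg h0, abs_of_nonneg (by positivity)]
      have h2 : ((Finset.univ.filter fun i => ¬ S i b).card : ℝ)
          = M - (Finset.univ.filter fun i => S i b).card := by
        have h3 := Finset.card_filter_add_card_filter_not (s := (Finset.univ : Finset I))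
          (fun i => S i b)
        rw [Finset.card_univ] at h3
        have h4 : ((Finset.univ.filter fun i => S i b).card : ℝ)
            + ((Finset.univ.filter fun i => ¬ S i b).card : ℝ) = M := by
          rw [hMdef]; exact_mod_cast h3
        linarith
      push_cast
      rw [h2]
      exact pow_lower hk hM (by positivity) (hcount b)
    · rw [if_neg hS]; simp
  -- combine
  have h1 : ∀ l, M ^ (k - 1) / 2 * ∑ i, Nrm (fun b => if S i b then y b else 0)
      ≤ ∑ ω, Nrm (Z ω l) := by
    intro l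
    rw [Finset.mul_sum, ← Finset.sum_fiberwise Finset.univ (fun ω : Fin k → I => ω l)]
    exact Finset.sum_le_sum fun i _ => step2 l i
  have h2 : (k : ℝ) * (M ^ (k - 1) / 2 * ∑ i, Nrm (fun b => if S i b then y b else 0))
      ≤ M ^ k * (k / c * (K * Nrm y)) := by
    calc (k : ℝ) * (M ^ (k - 1) / 2 * ∑ i, Nrm (fun b => if S i b then y b else 0))
        = ∑ _l : Fin k, (M ^ (k - 1) / 2 * ∑ i, Nrm (fun b => if S i b then y b else 0)) := by
          simp
      _ ≤ ∑ l : Fin k, ∑ ω, Nrm (Z ω l) := Finset.sum_le_sum fun l _ => h1 l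
      _ = ∑ ω, ∑ l : Fin k, Nrm (Z ω l) := Finset.sum_comm
      _ ≤ ∑ _ω : Fin k → I, (k / c * (K * Nrm y)) := Finset.sum_le_sum fun ω _ => step1 ω
      _ = M ^ k * (k / c * (K * Nrm y)) := by
          simp [hMdef]
  have h3 : M ^ k = M ^ (k - 1) * M := by
    rw [← pow_succ]; congr 1; omega
  rw [h3] at h2
  have h4 : 0 < (k : ℝ) * (M ^ (k - 1) / 2) := by positivity
  have h5 : (k : ℝ) * (M ^ (k - 1) / 2) * ∑ i, Nrm (fun b => if S i b then y b else 0)
      ≤ (k : ℝ) * (M ^ (k - 1) / 2) * (M * (2 * K / c * Nrm y)) := by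
    calc _ ≤ M ^ (k - 1) * M * (k / c * (K * Nrm y)) := by rw [mul_assoc]; exact h2
      _ = _ := by ring
  exact le_of_mul_le_mul_left h5 h4

/-- dyadic layers -/
lemma layers (a t : ℝ) (ht : 0 ≤ t) : ∀ J : ℕ, a ≤ 2 ^ (J + 1) * t →
    a ≤ 2 * t + ∑ j ∈ Finset.range J, (if 2 ^ (j + 1) * t < a then 2 ^ (j + 2) * t else 0) := by
  intro J
  induction J with
  | zero => intro h; simpa using h
  | succ J ih =>
    intro h
    rw [Finset.sum_range_succ]
    by_cases h1 : a ≤ 2 ^ (J + 1) * t
    · have h2 := ih h1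
      have h3 : (0 : ℝ) ≤ (if 2 ^ (J + 1) * t < a then 2 ^ (J + 2) * t else 0) := by
        split_ifs <;> positivity
      linarith
    · push Not at h1
      rw [if_pos h1]
      have h2 : 0 ≤ ∑ j ∈ Finset.range J, (if 2 ^ (j + 1) * t < a then 2 ^ (j + 2) * t else 0) := by
        apply Finset.sum_nonneg
        intro j _
        split_ifs <;> positivity
      have h3 : (2 : ℝ) ^ (J + 1 + 1) * t = 2 ^ (J + 2) * t := by ring
      rw [h3] at h
      linarith

open Classical in
/-- A lower estimate implies averaged concavity. -/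
theorem AC_of_lower {m : ℕ} {Nrm : (Fin m → ℝ) → ℝ} (h : IsLatticeNorm Nrm) {q K : ℝ}
    (hq : 1 ≤ q) (hK : 0 ≤ K) (hlow : LowerEst Nrm q K) {r : ℕ} (hr : 2 * q ≤ r) :
    AC Nrm r (2 + 16 * K) := by
  intro ι _ x y hxy
  rcases isEmpty_or_nonempty ι with hemp | hne
  · simp
  have hM : (0 : ℝ) < (Fintype.card ι : ℝ) := by exact_mod_cast Fintype.card_pos
  have hq0 : 0 < q := by linarith
  have hr1 : 1 ≤ r := by
    have : (1 : ℝ) ≤ r := by linarith
    exact_mod_cast this
  set J := Fintype.card ι with hJ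
  let S : ℕ → ι → Fin m → Prop := fun j i b => 2 ^ (j + 1) * |y b| < |x i b|
  let z : ℕ → ι → Fin m → ℝ := fun j i b => if S j i b then y b else 0
  -- the size of the layers
  have hcount : ∀ j b, 2 * ((2 ^ (r * j) : ℕ) : ℝ)
      * ((Finset.univ.filter fun i => S j i b).card : ℝ) ≤ (Fintype.card ι : ℝ) := by
    intro j b
    have h1 : ((Finset.univ.filter fun i => S j i b).card : ℝ) * ((2 ^ (j + 1) * |y b|) ^ r)
        ≤ (Fintype.card ι : ℝ) * |y b| ^ r := by
      refine le_trans ?_ (hxy b)
      calc ((Finset.univ.filter fun i => S j i b).card : ℝ) * ((2 ^ (j + 1) * |y b|) ^ r)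
          = ∑ _i ∈ Finset.univ.filter (fun i => S j i b), (2 ^ (j + 1) * |y b|) ^ r := by simp
        _ ≤ ∑ i ∈ Finset.univ.filter (fun i => S j i b), |x i b| ^ r := by
            apply Finset.sum_le_sum
            intro i hi
            rw [Finset.mem_filter] at hi
            exact pow_le_pow_left₀ (by positivity) (le_of_lt hi.2) r
        _ ≤ ∑ i, |x i b| ^ r := by
            apply Finset.sum_le_sum_of_subset_of_nonneg (Finset.subset_univ _)
            intro i _ _; positivity
    rcases (abs_nonneg (y b)).eq_or_lt' with h2 | h2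
    · -- the vector vanishes at `b`
      have h3 : (Finset.univ.filter fun i => S j i b) = ∅ := by
        rw [Finset.filter_eq_empty_iff]
        intro i _ hS
        have h4 : |x i b| ^ r ≤ 0 := by
          have h5 := hxy b
          rw [h2, zero_pow (by omega), mul_zero] at h5
          exact (Finset.single_le_sum (f := fun i => |x i b| ^ r)
            (fun i _ => by positivity) (Finset.mem_univ i)).trans h5
        have h6 : 0 < |x i b| := by
          have : 2 ^ (j + 1) * |y b| < |x i b| := hS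
          rw [h2, mul_zero] at this
          exact this
        have : 0 < |x i b| ^ r := by positivity
        linarith
      rw [h3]
      simp
    · rw [mul_pow, ← mul_assoc] at h1
      have h3 := le_of_mul_le_mul_right h1 (by positivity : 0 < |y b| ^ r)
      refine le_trans ?_ h3
      rw [mul_comm]
      apply mul_le_mul_of_nonneg_left _ (by positivity)
      push_cast
      rw [← pow_mul, ← pow_succ']
      apply pow_le_pow_right₀ (by norm_num)
      have : (j + 1) * r = r * j + r := by ring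
      omega
  -- each layer
  have hlayer : ∀ j, ∑ i, Nrm (z j i) ≤ (Fintype.card ι : ℝ) * (2 * K / 4 ^ j * Nrm y) := by
    intro j
    apply sparse h hq hK hlow (S j) y (k := 2 ^ (r * j)) (Nat.one_le_two_pow) (by positivity) _
      (hcount j)
    push_cast
    rw [← Real.rpow_natCast (2 : ℝ) (r * j), ← Real.rpow_mul (by norm_num)]
    have h1 : (4 : ℝ) ^ j = (2 : ℝ) ^ ((2 * j : ℕ) : ℝ) := by
      rw [Real.rpow_natCast, pow_mul]; norm_num
    rw [h1]
    apply Real.rpow_le_rpow_of_exponent_le (by norm_num)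
    push_cast
    rw [mul_one_div, le_div_iff₀ hq0]
    have : (0 : ℝ) ≤ j := by positivity
    nlinarith
  -- pointwise decomposition
  have hpt : ∀ i b, |x i b| ≤ 2 * |y b|
      + ∑ j ∈ Finset.range J, (2 ^ (j + 2)) * |z j i b| := by
    intro i b
    have h1 : |x i b| ≤ 2 ^ (J + 1) * |y b| := by
      have h2 : |x i b| ^ r ≤ (2 ^ (J + 1) * |y b|) ^ r := by
        have h3 : |x i b| ^ r ≤ (J : ℝ) * |y b| ^ r :=
          (Finset.single_le_sum (f := fun i => |x i b| ^ r)
            (fun i _ => by positivity) (Finset.mem_univ i)).trans (hxy b)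
        refine h3.trans ?_
        rw [mul_pow]
        apply mul_le_mul_of_nonneg_right _ (by positivity)
        have h4 : (J : ℝ) ≤ 2 ^ (J + 1) := by
          have := (Nat.lt_two_pow_self (n := J)).le
          have h5 : (J : ℝ) ≤ 2 ^ J := by exact_mod_cast this
          have h6 : (2 : ℝ) ^ J ≤ 2 ^ (J + 1) := by
            apply pow_le_pow_right₀ (by norm_num); omega
          linarith
        refine h4.trans ?_
        have h7 : (1 : ℝ) ≤ 2 ^ (J + 1) := one_le_pow₀ (by norm_num)
        exact le_self_pow₀ h7 (by omega)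
      exact (pow_le_pow_iff_left₀ (abs_nonneg _) (by positivity) (by omega)).1 h2
    refine (layers _ _ (abs_nonneg (y b)) J h1).trans ?_
    apply add_le_add_right
    apply Finset.sum_le_sum
    intro j _
    simp only [z, S]
    split_ifs
    · exact le_refl _
    · simp
  have hN : ∀ i, Nrm (x i) ≤ 2 * Nrm y + ∑ j ∈ Finset.range J, 2 ^ (j + 2) * Nrm (z j i) := by
    intro i
    have h1 : Nrm (x i) ≤ Nrm ((2 : ℝ) • (fun b => |y b|)
        + ∑ j ∈ Finset.range J, ((2 : ℝ) ^ (j + 2)) • (fun b => |z j i b|)) := by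
      apply h.mono
      intro b
      have h2 := hpt i b
      simp only [Pi.add_apply, Pi.smul_apply, smul_eq_mul, Finset.sum_apply]
      exact h2.trans (le_abs_self _)
    refine h1.trans ((h.add_le _ _).trans ?_)
    rw [h.smul, h.abs, abs_of_pos (by norm_num : (0 : ℝ) < 2)]
    apply add_le_add_right
    refine (h.sum_le _ _).trans (le_of_eq ?_)
    apply Finset.sum_congr rfl
    intro j _
    rw [h.smul, h.abs, abs_of_nonneg (by positivity)]
  -- the sum
  calc ∑ i, Nrm (x i)
      ≤ ∑ i, (2 * Nrm y + ∑ j ∈ Finset.range J, 2 ^ (j + 2) * Nrm (z j i)) :=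
        Finset.sum_le_sum fun i _ => hN i
    _ = (Fintype.card ι : ℝ) * (2 * Nrm y)
        + ∑ j ∈ Finset.range J, 2 ^ (j + 2) * ∑ i, Nrm (z j i) := by
        rw [Finset.sum_add_distrib, Finset.sum_comm]
        congr 1
        · simp
        · exact Finset.sum_congr rfl fun j _ => by rw [Finset.mul_sum]
    _ ≤ (Fintype.card ι : ℝ) * (2 * Nrm y)
        + ∑ j ∈ Finset.range J, 2 ^ (j + 2) *
          ((Fintype.card ι : ℝ) * (2 * K / 4 ^ j * Nrm y)) := by
        gcongr with j hj
        exact hlayer j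
    _ = (Fintype.card ι : ℝ) * (2 * Nrm y)
        + (Fintype.card ι : ℝ) * (8 * K * Nrm y) * ∑ j ∈ Finset.range J, (1 / 2 : ℝ) ^ j := by
        congr 1
        rw [Finset.mul_sum]
        apply Finset.sum_congr rfl
        intro j _
        have h4 : (4 : ℝ) ^ j = 2 ^ j * 2 ^ j := by rw [← mul_pow]; norm_num
        rw [h4, pow_add, one_div, inv_pow]
        field_simp
        ring
    _ ≤ (Fintype.card ι : ℝ) * (2 * Nrm y) + (Fintype.card ι : ℝ) * (8 * K * Nrm y) * 2 := by
        have h0 := h.nonneg y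
        gcongr
        exact sum_geometric_two_le J
    _ = (Fintype.card ι : ℝ) * ((2 + 16 * K) * Nrm y) := by ring

/-- Rademacher cotype `q` with constant at most `K`. -/
def CotypeLE {m : ℕ} (Nrm : (Fin m → ℝ) → ℝ) (q K : ℝ) : Prop :=
  ∀ (k : ℕ) (x : Fin k → Fin m → ℝ),
    (∑ i, Nrm (x i) ^ q) ^ (1 / q) ≤
      K * Real.sqrt ((∑ ε : Fin k → Bool,
        Nrm (∑ i, (if ε i then (1 : ℝ) else -1) • x i) ^ 2) / 2 ^ k)

theorem lower_of_cotype {m : ℕ} {Nrm : (Fin m → ℝ) → ℝ} (h : IsLatticeNorm Nrm) {q K : ℝ}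
    (hc : CotypeLE Nrm q K) : LowerEst Nrm q K := by
  intro k x hx
  refine (hc k x).trans (le_of_eq ?_)
  have h1 : ∀ ε : Fin k → Bool, Nrm (∑ i, (if ε i then (1 : ℝ) else -1) • x i)
      = Nrm (∑ i, x i) := by
    intro ε
    have h2 : ∀ b, |(∑ i, (if ε i then (1 : ℝ) else -1) • x i) b| = |(∑ i, x i) b| := by
      intro b
      rw [Finset.sum_apply, Finset.sum_apply]
      by_cases hex : ∃ l, x l b ≠ 0
      · obtain ⟨l, hl⟩ := hex
        have h3 : ∀ l', l' ≠ l → x l' b = 0 := by
          intro l' hl'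
          rcases hx l l' (Ne.symm hl') b with h4 | h4
          · exact absurd h4 hl
          · exact h4
        rw [Finset.sum_eq_single l, Finset.sum_eq_single l]
        · simp only [Pi.smul_apply, smul_eq_mul]
          split_ifs <;> simp
        · intro l' _ hl'; exact h3 l' hl'
        · intro h5; exact absurd (Finset.mem_univ _) h5
        · intro l' _ hl'; simp [h3 l' hl']
        · intro h5; exact absurd (Finset.mem_univ _) h5
      · push Not at hex
        rw [Finset.sum_eq_zero, Finset.sum_eq_zero]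
        · intro l _; exact hex l
        · intro l _; simp [hex l]
    exact le_antisymm (h.mono _ _ fun b => (h2 b).le) (h.mono _ _ fun b => (h2 b).ge)
  rw [Finset.sum_congr rfl fun ε _ => by rw [h1 ε]]
  congr 1
  rw [Finset.sum_const, Finset.card_univ, Fintype.card_fun, Fintype.card_bool, Fintype.card_fin,
    nsmul_eq_mul]
  push_cast
  rw [mul_div_assoc, mul_div_cancel₀ _ (by positivity : (2 : ℝ) ^ k ≠ 0),
    Real.sqrt_sq (h.nonneg _)]

end Pool.Agent.Helper799.PisierN
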