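import Mathlib
import Pool.Agent.Helper799.PisierN.Lower

set_option autoImplicit false

namespace Pool.Agent.Helper799.PisierN

open Finset Matrix

section root
open scoped MatrixOrder Matrix.Norms.L2Operator ComplexOrder

lemma exists_root {n : ℕ} (R : Matrix (Fin n) (Fin n) ℝ) (hR : R.PosSemidef) :
    ∃ B : Matrix (Fin n) (Fin n) ℝ, R = B * Bᵀ := by
  obtain ⟨B, hB⟩ := CStarAlgebra.nonneg_iff_eq_mul_star_self.mp hR.nonneg
  refine ⟨B, ?_⟩
  rw [hB, star_eq_conjTranspose, conjTranspose_eq_transpose_of_trivial]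

end root

lemma psd_qf {n : ℕ} {C : Matrix (Fin n) (Fin n) ℝ} (hC : C.PosSemidef) (a : Fin n → ℝ) :
    0 ≤ a ⬝ᵥ (C *ᵥ a) := by
  have := hC.dotProduct_mulVec_nonneg a
  simpa using this

/-- the row functional of the covariance `C` -/
noncomputable def vC {m n : ℕ} (A : Matrix (Fin m) (Fin n) ℝ) (C : Matrix (Fin n) (Fin n) ℝ) :
    Fin m → ℝ := fun b => Real.sqrt (A b ⬝ᵥ (C *ᵥ A b))

lemma vC_sq {m n : ℕ} (A : Matrix (Fin m) (Fin n) ℝ) {C : Matrix (Fin n) (Fin n) ℝ}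
    (hC : C.PosSemidef) (b : Fin m) : vC A C b ^ 2 = A b ⬝ᵥ (C *ᵥ A b) :=
  Real.sq_sqrt (psd_qf hC _)

lemma vC_nonneg {m n : ℕ} (A : Matrix (Fin m) (Fin n) ℝ) (C : Matrix (Fin n) (Fin n) ℝ)
    (b : Fin m) : 0 ≤ vC A C b := Real.sqrt_nonneg _

lemma sum_qf_le {n k : ℕ} (C : Fin k → Matrix (Fin n) (Fin n) ℝ)
    (h1 : (1 - ∑ i, C i).PosSemidef) (a : Fin n → ℝ) :
    ∑ i, a ⬝ᵥ (C i *ᵥ a) ≤ ∑ i, a i ^ 2 := by
  have h2 := psd_qf h1 a
  rw [Matrix.sub_mulVec, dotProduct_sub, Matrix.one_mulVec, Matrix.sum_mulVec,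
    dotProduct_sum] at h2
  have h3 : a ⬝ᵥ a = ∑ i, a i ^ 2 := by
    simp only [dotProduct]; exact Finset.sum_congr rfl fun i _ => by ring
  rw [h3] at h2
  linarith

/-- At most `(C/τ)^Q` disjoint covariances can have a large row functional. -/
lemma card_le {m n Q k : ℕ} (hQ : 2 ≤ Q) {K τ : ℝ} (hK : 0 ≤ K) (hτ : 0 < τ)
    {Nrm : (Fin m → ℝ) → ℝ} (h : IsLatticeNorm Nrm) (hc : AC Nrm Q K)
    (A : Matrix (Fin m) (Fin n) ℝ) (hA : Nrm (sf A) ≤ 1)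
    (C : Fin k → Matrix (Fin n) (Fin n) ℝ) (h0 : ∀ i, (C i).PosSemidef)
    (h1 : (1 - ∑ i, C i).PosSemidef) (h2 : ∀ i, τ ≤ Nrm (vC A (C i))) :
    (k : ℝ) ≤ (K / τ) ^ Q := by
  rcases Nat.eq_zero_or_pos k with hk0 | hkpos
  · subst hk0
    simp only [Nat.cast_zero]
    positivity
  have hkr : (0 : ℝ) < k := by exact_mod_cast hkpos
  set c : ℝ := (k : ℝ) ^ ((Q : ℝ)⁻¹) with hcdef
  have hc0 : 0 < c := by positivity
  have hcQ : c ^ Q = k := Real.rpow_inv_natCast_pow hkr.le (by omega)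
  have h3 : ∑ i : Fin k, Nrm (vC A (C i))
      ≤ (Fintype.card (Fin k) : ℝ) * (K * Nrm (c⁻¹ • sf A)) := by
    apply hc
    intro b
    obtain ⟨q, rfl⟩ : ∃ q, Q = q + 2 := ⟨Q - 2, by omega⟩
    have e1 : ∑ i, vC A (C i) b ^ 2 ≤ sf A b ^ 2 := by
      rw [sf_sq]
      have := sum_qf_le C h1 (A b)
      calc ∑ i, vC A (C i) b ^ 2 = ∑ i, A b ⬝ᵥ (C i *ᵥ A b) :=
            Finset.sum_congr rfl fun i _ => vC_sq A (h0 i) b
        _ ≤ _ := this
    have e2 : ∀ i, vC A (C i) b ≤ sf A b := by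
      intro i
      have e3 : vC A (C i) b ^ 2 ≤ sf A b ^ 2 :=
        (Finset.single_le_sum (f := fun i => vC A (C i) b ^ 2)
          (fun j _ => sq_nonneg _) (Finset.mem_univ i)).trans e1
      exact (sq_le_sq₀ (vC_nonneg _ _ _) (sf_nonneg _ _)).1 e3
    have e4 : ((Fintype.card (Fin k) : ℕ) : ℝ) * |(c⁻¹ • sf A) b| ^ (q + 2)
        = sf A b ^ (q + 2) := by
      rw [Fintype.card_fin, Pi.smul_apply, smul_eq_mul, abs_mul, mul_pow,
        abs_of_nonneg (sf_nonneg _ _), abs_of_pos (inv_pos.2 hc0), inv_pow, hcQ, ← mul_assoc,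
        mul_inv_cancel₀ hkr.ne', one_mul]
    rw [e4]
    calc ∑ i, |vC A (C i) b| ^ (q + 2) = ∑ i, vC A (C i) b ^ q * vC A (C i) b ^ 2 :=
          Finset.sum_congr rfl fun i _ => by
            rw [abs_of_nonneg (vC_nonneg _ _ _), pow_add]
      _ ≤ ∑ i, sf A b ^ q * vC A (C i) b ^ 2 := by
          apply Finset.sum_le_sum
          intro i _
          have := pow_le_pow_left₀ (vC_nonneg A (C i) b) (e2 i) q
          nlinarith [sq_nonneg (vC A (C i) b)]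
      _ = sf A b ^ q * ∑ i, vC A (C i) b ^ 2 := by rw [Finset.mul_sum]
      _ ≤ sf A b ^ q * sf A b ^ 2 := by
          have := pow_nonneg (sf_nonneg A b) q
          nlinarith
      _ = sf A b ^ (q + 2) := by rw [pow_add]
  rw [h.smul, abs_of_pos (inv_pos.2 hc0), Fintype.card_fin] at h3
  have h5 : (k : ℝ) * τ ≤ ∑ i : Fin k, Nrm (vC A (C i)) := by
    have : ∑ _i : Fin k, τ ≤ ∑ i : Fin k, Nrm (vC A (C i)) :=
      Finset.sum_le_sum fun i _ => h2 i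
    simpa using this
  have h6 : (k : ℝ) * τ ≤ k * (K * c⁻¹) := by
    refine h5.trans (h3.trans ?_)
    have : K * (c⁻¹ * Nrm (sf A)) ≤ K * (c⁻¹ * 1) := by gcongr
    rw [mul_one] at this
    gcongr
  have h7 : τ ≤ K * c⁻¹ := le_of_mul_le_mul_left h6 hkr
  have h8 : c ≤ K / τ := by
    rw [le_div_iff₀ hτ]
    have := mul_le_mul_of_nonneg_right h7 hc0.le
    rw [mul_assoc, inv_mul_cancel₀ hc0.ne', mul_one] at this
    linarith
  rw [← hcQ]
  exact pow_le_pow_left₀ hc0.le h8 Q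

theorem greedy {m n Q : ℕ} (hQ : 2 ≤ Q) {K τ ρ : ℝ} (hK : 0 ≤ K) (hτ : 0 < τ) (hρ : 0 ≤ ρ)
    {Nrm : (Fin m → ℝ) → ℝ} (h : IsLatticeNorm Nrm) (hc : AC Nrm Q K)
    (A : Matrix (Fin m) (Fin n) ℝ) (hA : Nrm (sf A) ≤ 1) (k₀ : ℕ) (hk : (K / τ) ^ Q ≤ k₀) :
    ∃ R : Matrix (Fin n) (Fin n) ℝ, R.PosSemidef ∧ (1 - R).PosSemidef ∧
      (n : ℝ) - k₀ * ρ ≤ R.trace ∧
      ∀ C : Matrix (Fin n) (Fin n) ℝ, C.PosSemidef → (R - C).PosSemidef → C.trace ≤ ρ →
        Nrm (vC A C) < τ := by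
  classical
  let P : ℕ → Prop := fun k => ∃ C : Fin k → Matrix (Fin n) (Fin n) ℝ,
    (∀ i, (C i).PosSemidef) ∧ (1 - ∑ i, C i).PosSemidef ∧ (∀ i, (C i).trace ≤ ρ) ∧
      ∀ i, τ ≤ Nrm (vC A (C i))
  have P0 : P 0 := by
    refine ⟨fun i => 0, fun i => i.elim0, ?_, fun i => i.elim0, fun i => i.elim0⟩
    simpa using (Matrix.PosSemidef.one (n := Fin n) (R := ℝ))
  have Pbd : ∀ k, P k → k ≤ k₀ := by
    rintro k ⟨C, c0, c1, -, c3⟩
    have := (card_le hQ hK hτ h hc A hA C c0 c1 c3).trans hk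
    exact_mod_cast this
  obtain ⟨k, hk1, hk2⟩ : ∃ k, P k ∧ ¬ P (k + 1) := by
    by_contra hcon
    push Not at hcon
    have hall : ∀ k, P k := fun k => Nat.rec P0 (fun k ih => hcon k ih) k
    have := Pbd _ (hall (k₀ + 1))
    omega
  have hkk := Pbd k hk1
  obtain ⟨C, c0, c1, c2, c3⟩ := hk1
  refine ⟨1 - ∑ i, C i, c1, ?_, ?_, ?_⟩
  · rw [sub_sub_cancel]
    exact Matrix.posSemidef_sum _ fun i _ => c0 i
  · rw [Matrix.trace_sub, Matrix.trace_one, Fintype.card_fin, Matrix.trace_sum]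
    have e1 : ∑ i, (C i).trace ≤ ∑ _i : Fin k, ρ := Finset.sum_le_sum fun i _ => c2 i
    have e2 : ∑ _i : Fin k, ρ = k * ρ := by simp
    have e3 : (k : ℝ) ≤ k₀ := by exact_mod_cast hkk
    have e4 : (k : ℝ) * ρ ≤ k₀ * ρ := by gcongr
    linarith
  · intro C' d0 d1 d2
    by_contra hcon
    push Not at hcon
    apply hk2
    refine ⟨Fin.cons C' C, ?_, ?_, ?_, ?_⟩
    · intro i
      refine Fin.cases ?_ (fun j => ?_) i
      · simpa using d0
      · simpa using c0 j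
    · rw [Fin.sum_univ_succ]
      simp only [Fin.cons_zero, Fin.cons_succ]
      have : (1 : Matrix (Fin n) (Fin n) ℝ) - (C' + ∑ i, C i) = 1 - ∑ i, C i - C' := by abel
      rw [this]
      exact d1
    · intro i
      refine Fin.cases ?_ (fun j => ?_) i
      · simpa using d2
      · simpa using c2 j
    · intro i
      refine Fin.cases ?_ (fun j => ?_) i
      · simpa using hcon
      · simpa using c3 j

end Pool.Agent.Helper799.PisierN
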