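import Mathlib
import Pool.Agent.Helper799.PisierN.Basic

set_option autoImplicit false

namespace Pool.Agent.Helper799.PisierN

open Finset Matrix

lemma trace_le_of_det {n : ℕ} (S : Matrix (Fin n) (Fin n) ℝ) (ℓ : ℝ)
    (h : ∀ t : ℝ, 0 ≤ t → (1 + t • S).det ≤ (1 + t * ℓ) ^ n) (hℓ : 0 ≤ ℓ) :
    S.trace ≤ n * ℓ := by
  set P : Polynomial ℝ :=
    (det (1 + (Polynomial.X : Polynomial ℝ) • S.map Polynomial.C)).divX.divX with hP
  have h1 : ∀ t : ℝ, 0 ≤ t → 1 + S.trace * t + P.eval t * t ^ 2 ≤ Real.exp (n * ℓ * t) := by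
    intro t ht
    rw [← Matrix.det_one_add_smul]
    refine (h t ht).trans ?_
    have : (1 + t * ℓ) ≤ Real.exp (t * ℓ) := by
      have := Real.add_one_le_exp (t * ℓ); linarith
    calc (1 + t * ℓ) ^ n ≤ (Real.exp (t * ℓ)) ^ n := by
          apply pow_le_pow_left₀ (by positivity) this
      _ = Real.exp (n * ℓ * t) := by rw [← Real.exp_nat_mul]; ring_nf
  -- derivative of the difference at zero
  let g : ℝ → ℝ := fun t => Real.exp (n * ℓ * t) - (1 + S.trace * t + P.eval t * t ^ 2)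
  have hg : HasDerivAt g (n * ℓ - S.trace) 0 := by
    have e1 : HasDerivAt (fun t : ℝ => Real.exp (n * ℓ * t)) (Real.exp (n * ℓ * 0) * (n * ℓ * 1)) 0 :=
      ((hasDerivAt_id (0 : ℝ)).const_mul (n * ℓ)).exp
    have e2 : HasDerivAt (fun t : ℝ => 1 + S.trace * t) (S.trace * 1) 0 :=
      ((hasDerivAt_id (0 : ℝ)).const_mul (S.trace)).const_add 1
    have e3 : HasDerivAt (fun t : ℝ => P.eval t * t ^ 2)
        (P.derivative.eval 0 * 0 ^ 2 + P.eval 0 * (((2 : ℕ) : ℝ) * 0 ^ (2 - 1))) 0 :=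
      (P.hasDerivAt 0).mul (hasDerivAt_pow 2 0)
    have e4 := e1.sub (e2.add e3)
    convert! e4 using 1
    simp
  have h0 : g 0 = 0 := by simp [g]
  rw [hasDerivAt_iff_tendsto_slope] at hg
  have hg' : Filter.Tendsto (slope g 0) (nhdsWithin 0 (Set.Ioi 0)) (nhds (n * ℓ - S.trace)) :=
    hg.mono_left (nhdsWithin_mono _ (fun x hx => ne_of_gt hx))
  have h2 : 0 ≤ n * ℓ - S.trace := by
    apply ge_of_tendsto hg'
    filter_upwards [self_mem_nhdsWithin] with t ht
    have ht' : (0 : ℝ) < t := ht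
    rw [slope_def_field, h0, sub_zero, sub_zero]
    apply div_nonneg _ ht'.le
    have := h1 t ht'.le
    simp only [g]
    linarith
  linarith

/-- Lewis position of a subspace of a lattice. -/
theorem lewis {m n : ℕ} {Nrm : (Fin m → ℝ) → ℝ} (h : IsLatticeNorm Nrm) (hn : 0 < n)
    (A : Matrix (Fin m) (Fin n) ℝ) (hA : ∀ x, A *ᵥ x = 0 → x = 0) :
    ∃ T : Matrix (Fin n) (Fin n) ℝ, IsUnit T.det ∧ Nrm (sf (A * T)) ≤ 1 ∧
      ∀ S : Matrix (Fin n) (Fin n) ℝ, S.trace ≤ n * Nrm (sf (A * T * S)) := by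
  letI : NormedAddCommGroup (Matrix (Fin n) (Fin n) ℝ) := Matrix.normedAddCommGroup
  letI : NormedSpace ℝ (Matrix (Fin n) (Fin n) ℝ) := Matrix.normedSpace
  let F : Matrix (Fin n) (Fin n) ℝ → ℝ := fun T => Nrm (sf (A * T))
  have Fnn : ∀ T, 0 ≤ F T := fun T => h.nonneg _
  have Fadd : ∀ S T, F (S + T) ≤ F S + F T := by
    intro S T
    have h1 : F (S + T) ≤ Nrm (sf (A * S) + sf (A * T)) := by
      apply h.mono
      intro b
      rw [Matrix.mul_add, abs_of_nonneg (sf_nonneg _ b)]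
      exact (sf_add _ _ b).trans (le_abs_self _)
    exact h1.trans (h.add_le _ _)
  have Fsmul : ∀ (a : ℝ) T, F (a • T) = |a| * F T := by
    intro a T
    simp only [F]
    rw [Matrix.mul_smul, sf_smul, h.smul, abs_abs]
  have Fzero : ∀ T, F T = 0 → T = 0 := by
    intro T hT
    have h1 : A * T = 0 := sf_eq_zero _ (h.eq_zero _ hT)
    ext i j
    have h2 : A *ᵥ (fun i => T i j) = 0 := by
      ext b
      have := congrFun (congrFun h1 b) j
      simpa [Matrix.mul_apply, Matrix.mulVec, dotProduct] using this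
    have h3 := hA _ h2
    exact congrFun h3 i
  have Fcont : Continuous F := by
    apply h.continuous.comp
    apply continuous_sf.comp
    exact (continuous_const).matrix_mul continuous_id
  -- `{F ≤ 1}` is compact
  have hne : (1 : Matrix (Fin n) (Fin n) ℝ) ≠ 0 := by
    intro h1
    have := congrFun (congrFun h1 ⟨0, hn⟩) ⟨0, hn⟩
    simp at this
  have hsph : (Metric.sphere (0 : Matrix (Fin n) (Fin n) ℝ) 1).Nonempty := by
    refine ⟨(‖(1 : Matrix (Fin n) (Fin n) ℝ)‖⁻¹) • 1, ?_⟩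
    rw [mem_sphere_zero_iff_norm, norm_smul, norm_inv, norm_norm]
    exact inv_mul_cancel₀ (norm_ne_zero_iff.2 hne)
  obtain ⟨T₀, hT₀, hmin⟩ := (isCompact_sphere (0 : Matrix (Fin n) (Fin n) ℝ) 1).exists_isMinOn
    hsph Fcont.continuousOn
  have hδ : 0 < F T₀ := by
    rcases (Fnn T₀).lt_or_eq with h1 | h1
    · exact h1
    · exfalso
      have := Fzero T₀ h1.symm
      rw [this] at hT₀
      simp at hT₀
  have hlow : ∀ T, F T₀ * ‖T‖ ≤ F T := by
    intro T
    rcases eq_or_ne T 0 with rfl | hT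
    · simp [Fnn]
    · have hnT : 0 < ‖T‖ := norm_pos_iff.2 hT
      have h1 : (‖T‖⁻¹ • T) ∈ Metric.sphere (0 : Matrix (Fin n) (Fin n) ℝ) 1 := by
        rw [mem_sphere_zero_iff_norm, norm_smul, norm_inv, norm_norm]
        exact inv_mul_cancel₀ hnT.ne'
      have h2 : F T₀ ≤ F (‖T‖⁻¹ • T) := hmin h1
      rw [Fsmul, abs_of_pos (inv_pos.2 hnT)] at h2
      calc F T₀ * ‖T‖ ≤ (‖T‖⁻¹ * F T) * ‖T‖ := by gcongr
        _ = F T := by field_simp
  have hcomp : IsCompact {T | F T ≤ 1} := by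
    apply Metric.isCompact_of_isClosed_isBounded
    · exact isClosed_le Fcont continuous_const
    · rw [isBounded_iff_forall_norm_le]
      refine ⟨1 / F T₀, fun T hT => ?_⟩
      rw [le_div_iff₀ hδ, mul_comm]
      exact (hlow T).trans hT
  have hne2 : ({T | F T ≤ 1} : Set (Matrix (Fin n) (Fin n) ℝ)).Nonempty :=
    ⟨0, by simp [F, h.zero, show sf (0 : Matrix (Fin m) (Fin n) ℝ) = 0 by
      funext b; simp [sf]]⟩
  have hdet : Continuous (fun T : Matrix (Fin n) (Fin n) ℝ => T.det) :=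
    continuous_id.matrix_det
  obtain ⟨T, hT, hmax⟩ := hcomp.exists_isMaxOn hne2 hdet.continuousOn
  have hF1 : 0 < F 1 := by
    rcases (Fnn 1).lt_or_eq with h1 | h1
    · exact h1
    · exact absurd (Fzero 1 h1.symm) hne
  have hpos : 0 < T.det := by
    have h1 : ((F 1)⁻¹ • (1 : Matrix (Fin n) (Fin n) ℝ)) ∈ {T | F T ≤ 1} := by
      simp only [Set.mem_setOf_eq]
      rw [Fsmul, abs_of_pos (inv_pos.2 hF1), inv_mul_cancel₀ hF1.ne']
    have h2 : ((F 1)⁻¹ • (1 : Matrix (Fin n) (Fin n) ℝ)).det ≤ T.det := hmax h1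
    rw [Matrix.det_smul, Matrix.det_one, mul_one] at h2
    exact lt_of_lt_of_le (by positivity) h2
  refine ⟨T, (isUnit_iff_ne_zero).2 hpos.ne', hT, fun S => ?_⟩
  set ℓ := Nrm (sf (A * T * S)) with hℓ
  have hℓ0 : 0 ≤ ℓ := h.nonneg _
  apply trace_le_of_det S ℓ _ hℓ0
  intro t ht
  have hpt : 0 < 1 + t * ℓ := by positivity
  have h1 : F ((1 + t * ℓ)⁻¹ • (T * (1 + t • S))) ≤ 1 := by
    rw [Fsmul, abs_of_pos (inv_pos.2 hpt)]
    have h2 : F (T * (1 + t • S)) ≤ 1 + t * ℓ := by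
      have h3 : T * (1 + t • S) = T + t • (T * S) := by
        rw [Matrix.mul_add, Matrix.mul_one, Matrix.mul_smul]
      rw [h3]
      refine (Fadd _ _).trans ?_
      rw [Fsmul, abs_of_nonneg ht]
      have h4 : F (T * S) = ℓ := by simp only [F, hℓ, Matrix.mul_assoc]
      rw [h4]
      have : F T ≤ 1 := hT
      linarith
    rw [inv_mul_le_iff₀ hpt]
    linarith
  have h5 : ((1 + t * ℓ)⁻¹ • (T * (1 + t • S))).det ≤ T.det := hmax h1
  rw [Matrix.det_smul, Matrix.det_mul, Fintype.card_fin] at h5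
  have h6 : T.det * (1 + t • S).det ≤ T.det * (1 + t * ℓ) ^ n := by
    have h7 := mul_le_mul_of_nonneg_left h5 (by positivity : 0 ≤ (1 + t * ℓ) ^ n)
    rw [← mul_assoc, ← mul_pow, mul_inv_cancel₀ hpt.ne', one_pow, one_mul] at h7
    linarith
  exact le_of_mul_le_mul_left h6 hpos

end Pool.Agent.Helper799.PisierN
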