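import Mathlib
import Pool.Agent.Helper799.PisierN.Lewis
import Pool.Agent.Helper799.PisierN.Greedy
import Pool.Agent.Helper799.PisierN.Cells

set_option autoImplicit false

namespace Pool.Agent.Helper799.PisierN

open Finset Matrix
open Pool.Agent.Helper799.Khin (sg)

section algebra
variable {n : ℕ}

lemma transpose_contr (B : Matrix (Fin n) (Fin n) ℝ) (h : (1 - B * Bᵀ).PosSemidef)
    (a : Fin n → ℝ) : ∑ i, (Bᵀ *ᵥ a) i ^ 2 ≤ ∑ i, a i ^ 2 := by
  have h1 := psd_qf h a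
  rw [Matrix.sub_mulVec, dotProduct_sub, Matrix.one_mulVec, ← Matrix.mulVec_mulVec,
    Matrix.dotProduct_mulVec, ← Matrix.mulVec_transpose] at h1
  have h2 : ∀ v : Fin n → ℝ, v ⬝ᵥ v = ∑ i, v i ^ 2 := by
    intro v; simp only [dotProduct]; exact Finset.sum_congr rfl fun i _ => by ring
  rw [h2, h2] at h1
  linarith

lemma contr (B : Matrix (Fin n) (Fin n) ℝ) (h : (1 - B * Bᵀ).PosSemidef)
    (u : Fin n → ℝ) : ∑ i, (B *ᵥ u) i ^ 2 ≤ ∑ i, u i ^ 2 := by
  have h1 := transpose_contr B h (B *ᵥ u)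
  have h2 : ∑ i, u i * (Bᵀ *ᵥ (B *ᵥ u)) i = ∑ i, (B *ᵥ u) i ^ 2 := by
    have e1 : u ⬝ᵥ (Bᵀ *ᵥ (B *ᵥ u)) = (B *ᵥ u) ⬝ᵥ (B *ᵥ u) := by
      rw [Matrix.dotProduct_mulVec, Matrix.vecMul_transpose]
    have e2 : (B *ᵥ u) ⬝ᵥ (B *ᵥ u) = ∑ i, (B *ᵥ u) i ^ 2 := by
      simp only [dotProduct]; exact Finset.sum_congr rfl fun i _ => by ring
    rw [← e2, ← e1]; rfl
  have h3 : 0 ≤ ∑ i, (u i - (Bᵀ *ᵥ (B *ᵥ u)) i) ^ 2 := Finset.sum_nonneg fun i _ => sq_nonneg _
  have h4 : ∑ i, (u i - (Bᵀ *ᵥ (B *ᵥ u)) i) ^ 2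
      = ∑ i, u i ^ 2 - 2 * ∑ i, u i * (Bᵀ *ᵥ (B *ᵥ u)) i + ∑ i, (Bᵀ *ᵥ (B *ᵥ u)) i ^ 2 := by
    rw [Finset.mul_sum, ← Finset.sum_sub_distrib, ← Finset.sum_add_distrib]
    exact Finset.sum_congr rfl fun i _ => by ring
  rw [h4, h2] at h3
  linarith

lemma dot_self (v : Fin n → ℝ) : v ⬝ᵥ v = ∑ i, v i ^ 2 := by
  simp only [dotProduct]; exact Finset.sum_congr rfl fun i _ => by ring

end algebra

section cov
variable {n : ℕ} {L : Type*} [DecidableEq L] [Fintype L] (J : Finset (Fin n) → L)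
  (B : Matrix (Fin n) (Fin n) ℝ)

/-- covariance of the conditional expectations -/
noncomputable def cov : Matrix (Fin n) (Fin n) ℝ :=
  ((2 : ℝ) ^ n)⁻¹ • ∑ s, Matrix.vecMulVec (B *ᵥ bar J s) (B *ᵥ bar J s)

lemma cov_qf (a : Fin n → ℝ) :
    a ⬝ᵥ (cov J B *ᵥ a) = ((2 : ℝ) ^ n)⁻¹ * ∑ s, (a ⬝ᵥ (B *ᵥ bar J s)) ^ 2 := by
  unfold cov
  rw [Matrix.smul_mulVec, dotProduct_smul, Matrix.sum_mulVec, dotProduct_sum, smul_eq_mul]
  congr 1
  apply Finset.sum_congr rfl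
  intro s _
  rw [Matrix.vecMulVec_mulVec]
  simp only [dotProduct_smul, MulOpposite.smul_eq_mul_unop, MulOpposite.unop_op]
  rw [dotProduct_comm (B *ᵥ bar J s) a]
  ring

lemma cov_herm : (cov J B).IsHermitian := by
  unfold cov
  rw [Matrix.IsHermitian, conjTranspose_eq_transpose_of_trivial, Matrix.transpose_smul,
    Matrix.transpose_sum]
  congr 1
  apply Finset.sum_congr rfl
  intro s _
  rw [Matrix.transpose_vecMulVec]

lemma cov_psd : (cov J B).PosSemidef := by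
  apply Matrix.PosSemidef.of_dotProduct_mulVec_nonneg (cov_herm J B)
  intro a
  have h1 : star a = a := by simp
  rw [h1, cov_qf]
  positivity

lemma cov_le (h : (1 - B * Bᵀ).PosSemidef) : (B * Bᵀ - cov J B).PosSemidef := by
  apply Matrix.PosSemidef.of_dotProduct_mulVec_nonneg
  · apply Matrix.IsHermitian.sub _ (cov_herm J B)
    rw [Matrix.IsHermitian, conjTranspose_eq_transpose_of_trivial, Matrix.transpose_mul,
      Matrix.transpose_transpose]
  · intro a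
    have h1 : star a = a := by simp
    rw [h1, Matrix.sub_mulVec, dotProduct_sub, cov_qf, ← Matrix.mulVec_mulVec,
      Matrix.dotProduct_mulVec, ← Matrix.mulVec_transpose, dot_self]
    have h2 := bar_mom2 J (Bᵀ *ᵥ a)
    have h3 : ∀ s, a ⬝ᵥ (B *ᵥ bar J s) = ∑ i, bar J s i * (Bᵀ *ᵥ a) i := by
      intro s
      rw [Matrix.dotProduct_mulVec, ← Matrix.mulVec_transpose, dotProduct_comm]
      rfl
    simp only [h3]
    have h4 : (0 : ℝ) < 2 ^ n := by positivity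
    rw [sub_nonneg, inv_mul_le_iff₀ h4]
    exact h2

lemma cov_trace (h : (1 - B * Bᵀ).PosSemidef) :
    (cov J B).trace ≤ 2 * Real.log (Fintype.card L) := by
  unfold cov
  rw [Matrix.trace_smul, Matrix.trace_sum, smul_eq_mul]
  have h4 : (0 : ℝ) < 2 ^ n := by positivity
  rw [inv_mul_le_iff₀ h4]
  refine le_trans ?_ (energy J)
  apply Finset.sum_le_sum
  intro s _
  rw [Matrix.trace_vecMulVec, dot_self]
  exact contr B h _

end cov

section lower
variable {m n : ℕ} {Nrm : (Fin m → ℝ) → ℝ}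

lemma sf_mul_le (A : Matrix (Fin m) (Fin n) ℝ) (B : Matrix (Fin n) (Fin n) ℝ)
    (h : (1 - B * Bᵀ).PosSemidef) (b : Fin m) : sf (A * B) b ≤ sf A b := by
  unfold sf
  apply Real.sqrt_le_sqrt
  have h1 := transpose_contr B h (A b)
  refine le_trans (le_of_eq ?_) h1
  apply Finset.sum_congr rfl
  intro i _
  congr 1
  simp only [Matrix.mul_apply, Matrix.mulVec, dotProduct, Matrix.transpose_apply]
  exact Finset.sum_congr rfl fun k _ => mul_comm _ _

lemma sf_root_le (A : Matrix (Fin m) (Fin n) ℝ) (B : Matrix (Fin n) (Fin n) ℝ)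
    (h : (1 - B * Bᵀ).PosSemidef) (b : Fin m) : sf (A * (B * Bᵀ)) b ≤ sf (A * B) b := by
  unfold sf
  apply Real.sqrt_le_sqrt
  have h1 := contr B h ((A * B) b)
  refine le_trans (le_of_eq ?_) h1
  apply Finset.sum_congr rfl
  intro i _
  congr 1
  rw [← Matrix.mul_assoc, Matrix.mul_apply]
  simp only [Matrix.mulVec, dotProduct, Matrix.transpose_apply]
  exact Finset.sum_congr rfl fun k _ => mul_comm _ _

/-- average over the signs from below -/
lemma signs_lower (h : IsLatticeNorm Nrm) (E : Matrix (Fin m) (Fin n) ℝ) :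
    (9 / 16) * 2 ^ n * Nrm (sf E) ≤ ∑ s : Finset (Fin n), Nrm (E *ᵥ (fun i => sg s i)) := by
  have h1 : Nrm (((9 / 16 : ℝ) * 2 ^ n) • sf E)
      ≤ Nrm (∑ s : Finset (Fin n), fun b => |(E *ᵥ (fun i => sg s i)) b|) := by
    apply h.mono
    intro b
    rw [abs_of_nonneg, abs_of_nonneg]
    · rw [Finset.sum_apply]
      have := khin (E b)
      simp only [Pi.smul_apply, smul_eq_mul, sf]
      rw [mul_assoc]
      refine this.trans (le_of_eq ?_)
      apply Finset.sum_congr rfl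
      intro s _
      congr 1
      simp only [Matrix.mulVec, dotProduct]
      exact Finset.sum_congr rfl fun k _ => mul_comm _ _
    · rw [Finset.sum_apply]
      exact Finset.sum_nonneg fun s _ => abs_nonneg _
    · have := sf_nonneg E b
      simp only [Pi.smul_apply, smul_eq_mul]
      positivity
  rw [h.smul, abs_of_nonneg (by positivity)] at h1
  refine h1.trans ((h.sum_le _ _).trans (le_of_eq ?_))
  exact Finset.sum_congr rfl fun s _ => h.abs _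

/-- passing to the conditional expectations -/
lemma cells_lower (h : IsLatticeNorm Nrm) {N : ℕ} {D : ℝ} (hD : 0 ≤ D)
    (E : Matrix (Fin m) (Fin n) ℝ) (Ψ : Matrix (Fin N) (Fin n) ℝ)
    (h1 : ∀ x, ∃ j, Nrm (E *ᵥ x) ≤ D * |(Ψ *ᵥ x) j|)
    (h2 : ∀ x j, |(Ψ *ᵥ x) j| ≤ 2 * Nrm (E *ᵥ x)) :
    ∃ J : Finset (Fin n) → Fin N × Bool,
      ∑ s : Finset (Fin n), Nrm (E *ᵥ (fun i => sg s i)) ≤ 2 * D * ∑ s, Nrm (E *ᵥ bar J s) := by
  classical
  choose j hj using h1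
  let J : Finset (Fin n) → Fin N × Bool := fun s =>
    (j (fun i => sg s i), decide (0 ≤ (Ψ *ᵥ (fun i => sg s i)) (j (fun i => sg s i))))
  refine ⟨J, ?_⟩
  rw [← sum_cav J, Finset.mul_sum]
  apply Finset.sum_le_sum
  intro s _
  set j₀ := (J s).1 with hj0
  have e0 : cav J (fun t => (Ψ *ᵥ (fun i => sg t i)) j₀) s = (Ψ *ᵥ bar J s) j₀ := by
    have := bar_dot J s (Ψ j₀)
    simp only [Matrix.mulVec, dotProduct]
    rw [Finset.sum_congr rfl fun i _ => mul_comm (Ψ j₀ i) (bar J s i), this]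
    congr 1
    funext t
    exact Finset.sum_congr rfl fun i _ => mul_comm _ _
  have hfst : ∀ t, J t = J s → j (fun i => sg t i) = j₀ := by
    intro t ht
    have : (J t).1 = (J s).1 := by rw [ht]
    exact this
  have hsnd : ∀ t, J t = J s → (0 ≤ (Ψ *ᵥ (fun i => sg t i)) j₀ ↔ (J s).2 = true) := by
    intro t ht
    have h3 : (J t).2 = (J s).2 := by rw [ht]
    rw [← h3, ← hfst t ht]
    simp [J]
  have key : cav J (fun t => D * |(Ψ *ᵥ (fun i => sg t i)) j₀|) s ≤ D * |(Ψ *ᵥ bar J s) j₀| := by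
    rw [← e0]
    rcases hb : (J s).2 with _ | _
    · have hle : ∀ t, J t = J s → (Ψ *ᵥ (fun i => sg t i)) j₀ ≤ 0 := by
        intro t ht
        by_contra hc
        push Not at hc
        have := (hsnd t ht).1 hc.le
        rw [hb] at this
        exact absurd this (by simp)
      have e1 : cav J (fun t => D * |(Ψ *ᵥ (fun i => sg t i)) j₀|) s
          = -(D * cav J (fun t => (Ψ *ᵥ (fun i => sg t i)) j₀) s) := by
        unfold cav
        rw [mul_div_assoc', ← neg_div, Finset.mul_sum, ← Finset.sum_neg_distrib]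
        congr 1
        apply Finset.sum_congr rfl
        intro t ht
        show D * |(Ψ *ᵥ fun i => sg t i) j₀| = _
        rw [abs_of_nonpos (hle t ((mem_cell J).1 ht))]
        ring
      rw [e1, ← mul_neg]
      exact mul_le_mul_of_nonneg_left (neg_le_abs _) hD
    · have hle : ∀ t, J t = J s → 0 ≤ (Ψ *ᵥ (fun i => sg t i)) j₀ := by
        intro t ht
        exact (hsnd t ht).2 hb
      have e1 : cav J (fun t => D * |(Ψ *ᵥ (fun i => sg t i)) j₀|) s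
          = D * cav J (fun t => (Ψ *ᵥ (fun i => sg t i)) j₀) s := by
        unfold cav
        rw [mul_div_assoc', Finset.mul_sum]
        congr 1
        apply Finset.sum_congr rfl
        intro t ht
        show D * |(Ψ *ᵥ fun i => sg t i) j₀| = _
        rw [abs_of_nonneg (hle t ((mem_cell J).1 ht))]
      rw [e1]
      exact mul_le_mul_of_nonneg_left (le_abs_self _) hD
  have k1 : cav J (fun t => Nrm (E *ᵥ (fun i => sg t i))) s
      ≤ cav J (fun t => D * |(Ψ *ᵥ (fun i => sg t i)) j₀|) s := by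
    apply cav_mono
    intro t ht
    have := hj (fun i => sg t i)
    rw [hfst t ht] at this
    exact this
  have k2 := h2 (bar J s) j₀
  have k3 : D * |(Ψ *ᵥ bar J s) j₀| ≤ D * (2 * Nrm (E *ᵥ bar J s)) :=
    mul_le_mul_of_nonneg_left k2 hD
  linarith

/-- the upper estimate for the conditional expectations -/
lemma cells_upper (h : IsLatticeNorm Nrm) {L : Type*} [DecidableEq L] [Fintype L]
    (J : Finset (Fin n) → L) {p : ℕ} (hp : 1 ≤ p) {K : ℝ} (hK : 0 ≤ K) (hc : AC Nrm (p + 1) K)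
    (E : Matrix (Fin m) (Fin n) ℝ) (v : Fin m → ℝ) (hv0 : ∀ b, 0 ≤ v b)
    (hv : ∀ b, ∑ s, ((E *ᵥ bar J s) b) ^ 2 = 2 ^ n * v b ^ 2) {A₁ B₁ τ : ℝ} (hA₁ : 0 ≤ A₁)
    (hB₁ : 0 ≤ B₁) (hAB : Real.sqrt (4 * ((2 * p).factorial : ℝ)) = A₁ * B₁ ^ p)
    (hτ : Nrm v ≤ τ) (hw : Nrm (sf E) ≤ 1) :
    ∑ s, Nrm (E *ᵥ bar J s) ≤ 2 ^ n * (K * (A₁ * τ + B₁)) := by
  classical
  have h2n : (0 : ℝ) < 2 ^ n := by positivity
  have hcardΩ : ((Fintype.card (Finset (Fin n)) : ℕ) : ℝ) = 2 ^ n := by simp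
  have hpt : ∀ b, ∑ s, |(E *ᵥ bar J s) b| ^ (p + 1)
      ≤ (Fintype.card (Finset (Fin n)) : ℝ) * |(A₁ • v + B₁ • sf E) b| ^ (p + 1) := by
    intro b
    have e1 : ∑ s, |(E *ᵥ bar J s) b| ^ (p + 1)
        ≤ Real.sqrt (∑ s, |(E *ᵥ bar J s) b| ^ 2)
          * Real.sqrt (∑ s, (|(E *ᵥ bar J s) b| ^ p) ^ 2) := by
      have := Real.sum_mul_le_sqrt_mul_sqrt (Finset.univ : Finset (Finset (Fin n)))
        (fun s => |(E *ᵥ bar J s) b|) (fun s => |(E *ᵥ bar J s) b| ^ p)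
      refine le_trans (le_of_eq ?_) this
      exact Finset.sum_congr rfl fun s _ => by ring
    have e2 : Real.sqrt (∑ s, |(E *ᵥ bar J s) b| ^ 2) = Real.sqrt (2 ^ n) * v b := by
      have : ∑ s, |(E *ᵥ bar J s) b| ^ 2 = 2 ^ n * v b ^ 2 := by
        rw [← hv b]; exact Finset.sum_congr rfl fun s _ => sq_abs _
      rw [this, Real.sqrt_mul h2n.le, Real.sqrt_sq (hv0 b)]
    have e3 : Real.sqrt (∑ s, (|(E *ᵥ bar J s) b| ^ p) ^ 2)
        ≤ Real.sqrt (2 ^ n) * (A₁ * B₁ ^ p * sf E b ^ p) := by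
      have h3 : ∑ s, (|(E *ᵥ bar J s) b| ^ p) ^ 2
          = ∑ s, (∑ i, bar J s i * E b i) ^ (2 * p) := by
        apply Finset.sum_congr rfl
        intro s _
        have h5 : (E *ᵥ bar J s) b = ∑ i, bar J s i * E b i := by
          simp only [Matrix.mulVec, dotProduct]
          exact Finset.sum_congr rfl fun i _ => mul_comm _ _
        rw [h5, ← pow_mul, mul_comm p 2, pow_mul, sq_abs, ← pow_mul]
      rw [h3]
      refine (Real.sqrt_le_sqrt (bar_even J hp (E b))).trans (le_of_eq ?_)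
      rw [Real.sqrt_mul h2n.le, Real.sqrt_mul (by positivity), hAB]
      congr 2
      have : (Real.sqrt (∑ i, E b i ^ 2)) ^ (2 * p) = (sf E b ^ p) ^ 2 := by
        unfold sf
        rw [← pow_mul, mul_comm p 2]
      rw [this, Real.sqrt_sq (pow_nonneg (sf_nonneg _ _) _)]
    have e4 : Real.sqrt (2 ^ n) * Real.sqrt (2 ^ n) = (2 : ℝ) ^ n := Real.mul_self_sqrt h2n.le
    have e5 : (A₁ • v + B₁ • sf E) b = A₁ * v b + B₁ * sf E b := by
      simp [Pi.smul_apply, smul_eq_mul]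
    have hs := sf_nonneg E b
    have hvb := hv0 b
    have hz : 0 ≤ A₁ * v b := mul_nonneg hA₁ hvb
    have hz2 : 0 ≤ B₁ * sf E b := mul_nonneg hB₁ hs
    rw [e5, abs_of_nonneg (by positivity), hcardΩ]
    calc ∑ s, |(E *ᵥ bar J s) b| ^ (p + 1)
        ≤ Real.sqrt (∑ s, |(E *ᵥ bar J s) b| ^ 2)
          * Real.sqrt (∑ s, (|(E *ᵥ bar J s) b| ^ p) ^ 2) := e1
      _ ≤ (Real.sqrt (2 ^ n) * v b) * (Real.sqrt (2 ^ n) * (A₁ * B₁ ^ p * sf E b ^ p)) := by
          rw [e2]; gcongr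
      _ = 2 ^ n * ((A₁ * v b) * (B₁ * sf E b) ^ p) := by
          rw [mul_pow]
          linear_combination (v b * (A₁ * B₁ ^ p * sf E b ^ p)) * e4
      _ ≤ 2 ^ n * (A₁ * v b + B₁ * sf E b) ^ (p + 1) := by
          apply mul_le_mul_of_nonneg_left _ h2n.le
          rw [pow_succ, mul_comm]
          apply mul_le_mul
          · exact pow_le_pow_left₀ hz2 (by linarith) p
          · linarith
          · exact hz
          · positivity
  have h1 := hc (Finset (Fin n)) (fun s => E *ᵥ bar J s) (A₁ • v + B₁ • sf E) hpt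
  rw [hcardΩ] at h1
  have h2 : Nrm (A₁ • v + B₁ • sf E) ≤ A₁ * τ + B₁ := by
    refine (h.add_le _ _).trans ?_
    rw [h.smul, h.smul, abs_of_nonneg hA₁, abs_of_nonneg hB₁]
    have := mul_le_mul_of_nonneg_left hτ hA₁
    have := mul_le_mul_of_nonneg_left hw hB₁
    linarith
  refine h1.trans ?_
  gcongr

end lower

/-- Main estimate in coordinates. -/
theorem core {Q : ℕ} (hQ : 2 ≤ Q) {K D : ℝ} (hK : 0 < K) (hD : 0 < D) :
    ∃ k₀ : ℕ, 1 ≤ k₀ ∧ ∀ {n m N : ℕ} (_ : 0 < n) {Nrm : (Fin m → ℝ) → ℝ}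
      (_ : IsLatticeNorm Nrm) (_ : AC Nrm Q K) (A : Matrix (Fin m) (Fin n) ℝ)
      (Φ : Matrix (Fin N) (Fin n) ℝ) (_ : ∀ x, A *ᵥ x = 0 → x = 0)
      (_ : ∀ x, ∃ j, Nrm (A *ᵥ x) ≤ D * |(Φ *ᵥ x) j|)
      (_ : ∀ x j, |(Φ *ᵥ x) j| ≤ 2 * Nrm (A *ᵥ x)),
      (n : ℝ) < 4 * k₀ * Real.log (N * 2 : ℕ) := by
  obtain ⟨p, hpQ⟩ : ∃ p, Q = p + 1 := ⟨Q - 1, by omega⟩
  subst hpQ
  have hp : 1 ≤ p := by omega
  set B₁ : ℝ := 1 / (16 * D * K) with hB₁
  have hB₁0 : 0 < B₁ := by positivity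
  set C₀ : ℝ := Real.sqrt (4 * ((2 * p).factorial : ℝ)) with hC₀
  have hC₀0 : 0 < C₀ := by positivity
  set A₁ : ℝ := C₀ / B₁ ^ p with hA₁
  have hA₁0 : 0 < A₁ := by positivity
  set τ : ℝ := B₁ / A₁ with hτ
  have hτ0 : 0 < τ := by positivity
  set k₀ : ℕ := ⌈(K / τ) ^ (p + 1)⌉₊ + 1 with hk₀
  refine ⟨k₀, by omega, ?_⟩
  intro n m N hn Nrm h hc A₀ Φ₀ hA₀ h1₀ h2₀
  obtain ⟨T, hT, hTF, hLew⟩ := lewis h hn A₀ hA₀
  set A := A₀ * T with hAdef
  set Φ := Φ₀ * T with hΦdef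
  have h1 : ∀ x, ∃ j, Nrm (A *ᵥ x) ≤ D * |(Φ *ᵥ x) j| := by
    intro x
    have := h1₀ (T *ᵥ x)
    simpa only [Matrix.mulVec_mulVec] using this
  have h2 : ∀ x j, |(Φ *ᵥ x) j| ≤ 2 * Nrm (A *ᵥ x) := by
    intro x j
    have := h2₀ (T *ᵥ x) j
    simpa only [Matrix.mulVec_mulVec] using this
  by_contra hcon
  push Not at hcon
  have hlog : 0 ≤ Real.log (N * 2 : ℕ) := Real.log_natCast_nonneg _
  have hk₀' : (K / τ) ^ (p + 1) ≤ (k₀ : ℝ) := by
    rw [hk₀]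
    push_cast
    have := Nat.le_ceil ((K / τ) ^ (p + 1))
    linarith
  obtain ⟨R, r0, r1, r2, r3⟩ := greedy (ρ := 2 * Real.log (N * 2 : ℕ)) hQ hK.le hτ0
    (by positivity) h hc A hTF k₀ hk₀'
  obtain ⟨B, hB⟩ := exists_root R r0
  rw [hB] at r1 r2 r3
  set E := A * B with hE
  have htr : (n : ℝ) / 2 ≤ (B * Bᵀ).trace := by
    refine le_trans ?_ r2
    nlinarith
  have hw1 : 1 / 2 ≤ Nrm (sf E) := by
    have q1 := hLew (B * Bᵀ)
    have q2 : Nrm (sf (A * (B * Bᵀ))) ≤ Nrm (sf E) := by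
      apply h.mono
      intro b
      rw [abs_of_nonneg (sf_nonneg _ _), abs_of_nonneg (sf_nonneg _ _)]
      exact sf_root_le A B r1 b
    have q3 : (0 : ℝ) < n := by exact_mod_cast hn
    have q4 : (n : ℝ) * Nrm (sf (A * (B * Bᵀ))) ≤ n * Nrm (sf E) := by gcongr
    have q5 : (n : ℝ) * (1 / 2) ≤ n * Nrm (sf E) := by linarith
    exact le_of_mul_le_mul_left q5 q3
  have hw2 : Nrm (sf E) ≤ 1 := by
    refine le_trans ?_ hTF
    apply h.mono
    intro b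
    rw [abs_of_nonneg (sf_nonneg _ _), abs_of_nonneg (sf_nonneg _ _)]
    exact sf_mul_le A B r1 b
  have h1E : ∀ x, ∃ j, Nrm (E *ᵥ x) ≤ D * |((Φ * B) *ᵥ x) j| := by
    intro x
    have := h1 (B *ᵥ x)
    simpa only [Matrix.mulVec_mulVec] using this
  have h2E : ∀ x j, |((Φ * B) *ᵥ x) j| ≤ 2 * Nrm (E *ᵥ x) := by
    intro x j
    have := h2 (B *ᵥ x) j
    simpa only [Matrix.mulVec_mulVec] using this
  obtain ⟨J, hJ⟩ := cells_lower h hD.le E (Φ * B) h1E h2E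
  have hlow := signs_lower h E
  have hcard : Fintype.card (Fin N × Bool) = N * 2 := by simp
  have htrC := cov_trace J B r1
  rw [hcard] at htrC
  have hv := r3 (cov J B) (cov_psd J B) (cov_le J B r1) htrC
  have hup := cells_upper h J hp hK.le hc E (vC A (cov J B)) (vC_nonneg _ _) (by
      intro b
      rw [vC_sq A (cov_psd J B) b, cov_qf, ← mul_assoc, mul_inv_cancel₀ (by positivity), one_mul]
      apply Finset.sum_congr rfl
      intro s _
      rw [hE, ← Matrix.mulVec_mulVec]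
      rfl) hA₁0.le hB₁0.le (by
      rw [hA₁, div_mul_cancel₀ _ (by positivity)]) hv.le hw2
  have e1 : A₁ * τ = B₁ := by rw [hτ]; field_simp
  rw [e1] at hup
  have e2 : K * (B₁ + B₁) = 1 / (8 * D) := by
    rw [hB₁]; field_simp; norm_num
  rw [e2] at hup
  have h2n : (0 : ℝ) < 2 ^ n := by positivity
  have f1 : (9 / 16 : ℝ) * 2 ^ n * (1 / 2) ≤ (9 / 16) * 2 ^ n * Nrm (sf E) := by gcongr
  have f2 : 2 * D * ∑ s, Nrm (E *ᵥ bar J s) ≤ 2 * D * (2 ^ n * (1 / (8 * D))) := by gcongr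
  have f3 : 2 * D * (2 ^ n * (1 / (8 * D))) = (2 : ℝ) ^ n * (1 / 4) := by
    field_simp; norm_num
  rw [f3] at f2
  linarith

end Pool.Agent.Helper799.PisierN
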